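import Mathlib
import Pool.Agent.Y530.BB.Main
import Pool.Agent.Y530.BB.Real

/-!
# Bundles of `n` bars

The points of the bodies have `n` colours. A bundle joins two different bodies by `n` bars whose
ends in each of the two bodies have the `n` different colours.
-/

set_option autoImplicit false

namespace Pool.Agent.Y530.TN

open Finset Module Pool.Agent.W824.BJ Pool.Agent.Y530.BB

variable {V B : Type} {n : ℕ}

open Classical in
/-- the bars from `f k` to `g k` -/
noncomputable def brn (f g : Fin n → V) : Finset (Sym2 V) := univ.image fun k => s(f k, g k)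

open Classical in
/-- the bars from `f k` to `g k`, `k ∈ I` -/
noncomputable def brI (I : Finset (Fin n)) (f g : Fin n → V) : Finset (Sym2 V) :=
  I.image fun k => s(f k, g k)

/-- `e` is a bundle between the bodies `b` and `b'`: it consists of `n` bars, whose ends in each
of the bodies have the `n` different colours -/
def IsBd (β : V → B) (χ : V → Fin n) (b b' : B) (e : Finset (Sym2 V)) : Prop :=
  ∃ f g : Fin n → V, (∀ k, χ (f k) = k) ∧ Function.Injective (fun k => χ (g k)) ∧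
    (∀ k, β (f k) = b) ∧ (∀ k, β (g k) = b') ∧ e = brn f g

/-- a family of pairwise disjoint bundles between different bodies -/
def Bun (β : V → B) (χ : V → Fin n) (Q : Finset (Finset (Sym2 V))) : Prop :=
  (∀ e ∈ Q, ∃ b b', b ≠ b' ∧ IsBd β χ b b' e) ∧ ∀ e ∈ Q, ∀ e' ∈ Q, e ≠ e' → Disjoint e e'

open Classical in
/-- all bars of a family of bundles -/
noncomputable def bs (Q : Finset (Finset (Sym2 V))) : Finset (Sym2 V) := Q.biUnion id

open Classical in
/-- the bundles inside a set of bodies -/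
noncomputable def qi (β : V → B) (Q : Finset (Finset (Sym2 V))) (C : Finset B) :
    Finset (Finset (Sym2 V)) := Q.filter fun e => ∀ x ∈ e, ∀ v ∈ x, β v ∈ C

/-- any two bodies are separated by a motion -/
def NR (β : V → B) (F : Finset (Sym2 V)) : Prop := ∀ b b', b ≠ b' → ∃ m ∈ GB β F, m b ≠ m b'

/-- the theorem for systems of `N` bundles of `n` bars -/
def PN (n N : ℕ) : Prop := ∀ (V B : Type) [Fintype V] [Fintype B] (β : V → B) (χ : V → Fin n)
  (Q : Finset (Finset (Sym2 V))), Bun β χ Q → Q.card = N → NR β (bs Q) →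
    gb β (bs Q) + n * N = 6 * Fintype.card B

theorem mem_brn {f g : Fin n → V} {e : Sym2 V} : e ∈ brn f g ↔ ∃ k, s(f k, g k) = e := by
  classical
  unfold brn
  simp

theorem mem_brI {I : Finset (Fin n)} {f g : Fin n → V} {e : Sym2 V} :
    e ∈ brI I f g ↔ ∃ k ∈ I, s(f k, g k) = e := by
  classical
  unfold brI
  simp

theorem mem_bs {Q : Finset (Finset (Sym2 V))} {x : Sym2 V} : x ∈ bs Q ↔ ∃ e ∈ Q, x ∈ e := by
  classical
  unfold bs
  simp

theorem bs_mono {Q Q' : Finset (Finset (Sym2 V))} (h : Q ⊆ Q') : bs Q ⊆ bs Q' := by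
  intro x hx
  rw [mem_bs] at hx ⊢
  obtain ⟨e, he, hx⟩ := hx
  exact ⟨e, h he, hx⟩

theorem Bun.mono {β : V → B} {χ : V → Fin n} {Q Q' : Finset (Finset (Sym2 V))} (h : Q ⊆ Q')
    (hQ : Bun β χ Q') : Bun β χ Q :=
  ⟨fun e he => hQ.1 e (h he), fun e he e' he' hne => hQ.2 e (h he) e' (h he') hne⟩

theorem IsBd.symm {β : V → B} {χ : V → Fin n} {b b' : B} {e : Finset (Sym2 V)}
    (h : IsBd β χ b b' e) : IsBd β χ b' b e := by
  classical
  obtain ⟨f, g, h1, h2, h3, h4, rfl⟩ := h
  have hb : Function.Bijective (fun k => χ (g k)) := Finite.injective_iff_bijective.1 h2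
  let σ : Equiv.Perm (Fin n) := Equiv.ofBijective _ hb
  have hσ : ∀ k, χ (g (σ.symm k)) = k := fun k => σ.apply_symm_apply k
  refine ⟨fun k => g (σ.symm k), fun k => f (σ.symm k), hσ, ?_, fun k => h4 _, fun k => h3 _, ?_⟩
  · intro k l hkl
    simp only [h1] at hkl
    exact σ.symm.injective hkl
  · ext x
    rw [mem_brn, mem_brn]
    constructor
    · rintro ⟨k, rfl⟩
      exact ⟨σ k, by rw [Equiv.symm_apply_apply, Sym2.eq_swap]⟩
    · rintro ⟨k, rfl⟩
      exact ⟨σ.symm k, Sym2.eq_swap⟩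

theorem IsBd.card {β : V → B} {χ : V → Fin n} {b b' : B} {e : Finset (Sym2 V)}
    (h : IsBd β χ b b' e) (hb : b ≠ b') : e.card = n := by
  classical
  obtain ⟨f, g, h1, h2, h3, h4, rfl⟩ := h
  unfold brn
  rw [Finset.card_image_of_injective]
  · simp
  · intro k l hkl
    have hkl' : s(f k, g k) = s(f l, g l) := hkl
    rw [Sym2.eq_iff] at hkl'
    rcases hkl' with ⟨h5, -⟩ | ⟨h5, -⟩
    · rw [← h1 k, ← h1 l, h5]
    · exact absurd ((h3 k).symm.trans ((congrArg β h5).trans (h4 l))) hb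

/-- the ends of the bars of a bundle -/
theorem IsBd.mem_iff [NeZero n] {β : V → B} {χ : V → Fin n} {b b' : B} {e : Finset (Sym2 V)}
    (h : IsBd β χ b b' e) (C : Finset B) :
    (∀ x ∈ e, ∀ v ∈ x, β v ∈ C) ↔ b ∈ C ∧ b' ∈ C := by
  obtain ⟨f, g, h1, h2, h3, h4, rfl⟩ := h
  constructor
  · intro h
    have h5 := h s(f 0, g 0) (mem_brn.2 ⟨0, rfl⟩)
    refine ⟨?_, ?_⟩
    · rw [← h3 0]
      exact h5 _ (Sym2.mem_mk_left _ _)
    · rw [← h4 0]
      exact h5 _ (Sym2.mem_mk_right _ _)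
  · rintro ⟨hb, hb'⟩ x hx v hv
    obtain ⟨k, rfl⟩ := mem_brn.1 hx
    rcases Sym2.mem_iff.1 hv with rfl | rfl
    · rw [h3]
      exact hb
    · rw [h4]
      exact hb'

theorem card_bs {β : V → B} {χ : V → Fin n} {Q : Finset (Finset (Sym2 V))} (h : Bun β χ Q) :
    (bs Q).card = n * Q.card := by
  classical
  unfold bs
  rw [Finset.card_biUnion]
  · rw [Finset.sum_congr rfl (fun e he => (by
      obtain ⟨b, b', hne, hb⟩ := h.1 e he
      exact hb.card hne : (id e : Finset (Sym2 V)).card = n)), Finset.sum_const, smul_eq_mul,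
      mul_comm]
  · intro e he e' he' hne
    exact h.2 e he e' he' hne

theorem mem_qi {β : V → B} {Q : Finset (Finset (Sym2 V))} {C : Finset B} {e : Finset (Sym2 V)} :
    e ∈ qi β Q C ↔ e ∈ Q ∧ ∀ x ∈ e, ∀ v ∈ x, β v ∈ C := by
  classical
  unfold qi
  rw [Finset.mem_filter]

theorem qi_subset (β : V → B) (Q : Finset (Finset (Sym2 V))) (C : Finset B) : qi β Q C ⊆ Q :=
  fun _ he => (mem_qi.1 he).1

theorem qi_mono {β : V → B} {Q Q' : Finset (Finset (Sym2 V))} {C C' : Finset B} (h : Q ⊆ Q')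
    (hC : C ⊆ C') : qi β Q C ⊆ qi β Q' C' := by
  intro e he
  rw [mem_qi] at he ⊢
  exact ⟨h he.1, fun x hx v hv => hC (he.2 x hx v hv)⟩

theorem NR.mono {β : V → B} {F F' : Finset (Sym2 V)} (h : F ⊆ F') (hF : NR β F') : NR β F := by
  intro b b' hne
  obtain ⟨m, hm, h1⟩ := hF b b' hne
  exact ⟨m, BM_anti h _ hm, h1⟩

end Pool.Agent.Y530.TN
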