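import Mathlib
import Pool.Agent.Y530.TN.Defs

/-!
# Statements of the parts
-/

set_option autoImplicit false

namespace Pool.Agent.Y530.TN

open Finset Module Pool.Agent.W824.BJ Pool.Agent.Y530.BB

/-- the extension step: a body `y` with two bundles -/
def S_EXT (n : ℕ) : Prop := ∀ (V B : Type) [Fintype V] [Fintype B] [DecidableEq V] (β : V → B)
  (χ : V → Fin n) (y a b : B) (F0 : Finset (Sym2 V)) (fa fb A Bb : Fin n → V)
  (I : Finset (Fin n)),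
  y ≠ a → y ≠ b → a ≠ b → (∀ u v, s(u, v) ∈ F0 → β u ≠ y ∧ β v ≠ y) →
  (∀ k, β (fa k) = y) → (∀ k, β (fb k) = y) → (∀ k, χ (fa k) = k) → (∀ k, χ (fb k) = k) →
  (∀ k, β (A k) = a) → (∀ k, β (Bb k) = b) → Function.Injective A → Function.Injective Bb →
  I.card + 6 = 2 * n →
  gb β (F0 ∪ (brn fa A ∪ brn fb Bb)) + 6 ≤ gb β (F0 ∪ brI I A Bb)

/-- choice of independent bars -/
def S_PICK : Prop := ∀ (n : ℕ) (V B : Type) [Fintype V] [Fintype B] [DecidableEq V] (β : V → B)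
  (F0 : Finset (Sym2 V)) (A Bb : Fin n → V) (t : ℕ), t ≤ n →
  ∃ I : Finset (Fin n), I.card = t ∧ (gb β (F0 ∪ brI I A Bb) + t ≤ gb β F0 ∨
    gb β (F0 ∪ brI I A Bb) = gb β (F0 ∪ brn A Bb))

/-- six bars between two bodies -/
def S_PAIR : Prop := ∀ (V B : Type) [Fintype V] [Fintype B] (β : V → B) (y a : B)
  (F F1 : Finset (Sym2 V)), y ≠ a → F1 ⊆ F → F1.card = 6 → Cap F1 →
  (∀ u v, s(u, v) ∈ F1 → (β u = y ∧ β v = a) ∨ (β u = a ∧ β v = y)) →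
  ∀ m ∈ GB β F, m y = m a

/-- a system inside `C` any two bodies of which are separated by a motion -/
def S_CNT : Prop := ∀ (V B : Type) [Fintype V] [Fintype B] (β : V → B) (F : Finset (Sym2 V))
  (C : Finset B), 2 ≤ C.card → (∀ u v, s(u, v) ∈ F → β u ∈ C ∧ β v ∈ C) → NR β F →
  6 * Fintype.card B + 7 ≤ gb β F + 6 * C.card

/-- three bodies, numerical statement -/
def S_NUM (n : ℕ) : Prop := ∃ P : Fin 3 → Fin n → Fin 4 → ℚ, ∀ σ : Fin n → Fin n,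
  Function.Injective σ → ∀ m : Fin 3 → Fin 6 → ℚ, m 0 = 0 →
    (∀ k, pr (m 1) (P 0 k) (P 1 k) = 0) → (∀ k, pr (m 2) (P 0 k) (P 2 k) = 0) →
    (∀ k, pr (m 1 - m 2) (P 1 k) (P 2 (σ k)) = 0) → m = 0

/-- three bodies, any two joined by a bundle -/
def S_TRI (n : ℕ) : Prop := ∀ (V B : Type) [Fintype V] [Fintype B] (β : V → B) (χ : V → Fin n)
  (b0 b1 b2 : B) (F e01 e02 e12 : Finset (Sym2 V)), b0 ≠ b1 → b0 ≠ b2 → b1 ≠ b2 →
  IsBd β χ b0 b1 e01 → IsBd β χ b0 b2 e02 → IsBd β χ b1 b2 e12 → e01 ⊆ F → e02 ⊆ F →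
  e12 ⊆ F → ∀ m ∈ GB β F, m b0 = m b1

end Pool.Agent.Y530.TN
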