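import Mathlib
import Pool.Agent.Y530.TN.Stm

/-!
# Bundles of `n` bars: preparations
-/

set_option autoImplicit false

namespace Pool.Agent.Y530.TN

open Finset Module Pool.Agent.W824.BJ Pool.Agent.Y530.BB

variable {V B : Type} {n : ℕ}

theorem IsBd.br {β : V → B} {χ : V → Fin n} {b b' : B} {e : Finset (Sym2 V)}
    (h : IsBd β χ b b' e) {x : Sym2 V} (hx : x ∈ e) :
    ∃ u v, β u = b ∧ β v = b' ∧ x = s(u, v) := by
  obtain ⟨f, g, h1, h2, h3, h4, rfl⟩ := h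
  obtain ⟨k, rfl⟩ := mem_brn.1 hx
  exact ⟨f k, g k, h3 k, h4 k, rfl⟩

/-- `e` touches `y` -/
def Tc (β : V → B) (y : B) (e : Finset (Sym2 V)) : Prop := ∃ x ∈ e, ∃ v ∈ x, β v = y

theorem IsBd.tc [NeZero n] {β : V → B} {χ : V → Fin n} {b b' : B} {e : Finset (Sym2 V)}
    (h : IsBd β χ b b' e) (y : B) : Tc β y e ↔ y = b ∨ y = b' := by
  constructor
  · rintro ⟨x, hx, v, hv, rfl⟩
    obtain ⟨u, w, rfl, rfl, rfl⟩ := h.br hx
    rcases Sym2.mem_iff.1 hv with rfl | rfl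
    · exact Or.inl rfl
    · exact Or.inr rfl
  · intro hy
    obtain ⟨f, g, h1, h2, h3, h4, rfl⟩ := h
    rcases hy with rfl | rfl
    · exact ⟨s(f 0, g 0), mem_brn.2 ⟨0, rfl⟩, f 0, Sym2.mem_mk_left _ _, h3 0⟩
    · exact ⟨s(f 0, g 0), mem_brn.2 ⟨0, rfl⟩, g 0, Sym2.mem_mk_right _ _, h4 0⟩

theorem IsBd.mem_qi [NeZero n] {β : V → B} {χ : V → Fin n} {b b' : B} {e : Finset (Sym2 V)}
    {Q : Finset (Finset (Sym2 V))} (h : IsBd β χ b b' e) (C : Finset B) :
    e ∈ qi β Q C ↔ e ∈ Q ∧ b ∈ C ∧ b' ∈ C := by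
  rw [TN.mem_qi, h.mem_iff]

open Classical in
/-- the bundles at `y` -/
noncomputable def qy (β : V → B) (Q : Finset (Finset (Sym2 V))) (y : B) :
    Finset (Finset (Sym2 V)) := Q.filter fun e => Tc β y e

open Classical in
/-- the bundles not at `y` -/
noncomputable def qn (β : V → B) (Q : Finset (Finset (Sym2 V))) (y : B) :
    Finset (Finset (Sym2 V)) := Q.filter fun e => ¬ Tc β y e

theorem mem_qy {β : V → B} {Q : Finset (Finset (Sym2 V))} {y : B} {e : Finset (Sym2 V)} :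
    e ∈ qy β Q y ↔ e ∈ Q ∧ Tc β y e := by
  classical
  unfold qy
  rw [Finset.mem_filter]

theorem mem_qn {β : V → B} {Q : Finset (Finset (Sym2 V))} {y : B} {e : Finset (Sym2 V)} :
    e ∈ qn β Q y ↔ e ∈ Q ∧ ¬ Tc β y e := by
  classical
  unfold qn
  rw [Finset.mem_filter]

theorem qn_subset (β : V → B) (Q : Finset (Finset (Sym2 V))) (y : B) : qn β Q y ⊆ Q :=
  fun _ he => (mem_qn.1 he).1

theorem qy_subset (β : V → B) (Q : Finset (Finset (Sym2 V))) (y : B) : qy β Q y ⊆ Q :=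
  fun _ he => (mem_qy.1 he).1

theorem card_yn (β : V → B) (Q : Finset (Finset (Sym2 V))) (y : B) :
    (qy β Q y).card + (qn β Q y).card = Q.card := by
  classical
  unfold qy qn
  exact Finset.card_filter_add_card_filter_not _

open Classical in
theorem bs_yn (β : V → B) (Q : Finset (Finset (Sym2 V))) (y : B) :
    bs Q = bs (qn β Q y) ∪ bs (qy β Q y) := by
  ext x
  rw [Finset.mem_union, mem_bs, mem_bs, mem_bs]
  constructor
  · rintro ⟨e, he, hx⟩
    by_cases h : Tc β y e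
    · exact Or.inr ⟨e, mem_qy.2 ⟨he, h⟩, hx⟩
    · exact Or.inl ⟨e, mem_qn.2 ⟨he, h⟩, hx⟩
  · rintro (⟨e, he, hx⟩ | ⟨e, he, hx⟩)
    · exact ⟨e, (mem_qn.1 he).1, hx⟩
    · exact ⟨e, (mem_qy.1 he).1, hx⟩

theorem sum_dg [NeZero n] [Fintype B] {β : V → B} {χ : V → Fin n} {Q : Finset (Finset (Sym2 V))}
    (h : Bun β χ Q) : ∑ y : B, (qy β Q y).card = 2 * Q.card := by
  classical
  have h1 := Finset.sum_card_bipartiteAbove_eq_sum_card_bipartiteBelow (Tc β)
    (s := (univ : Finset B)) (t := Q)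
  have h2 : ∀ e ∈ Q, ((univ : Finset B).bipartiteBelow (Tc β) e).card = 2 := by
    intro e he
    obtain ⟨b, b', hne, hb⟩ := h.1 e he
    have : (univ : Finset B).bipartiteBelow (Tc β) e = {b, b'} := by
      ext y
      simp [Finset.bipartiteBelow, hb.tc]
    rw [this, Finset.card_pair hne]
  rw [Finset.sum_congr rfl h2, Finset.sum_const, smul_eq_mul, mul_comm] at h1
  rw [← h1]
  refine Finset.sum_congr rfl fun y _ => ?_
  congr 1

/-- a vertex is in at most one bar of a bundle -/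
theorem IsBd.one {β : V → B} {χ : V → Fin n} {b b' : B} {e : Finset (Sym2 V)}
    (h : IsBd β χ b b' e) (hne : b ≠ b') {x x' : Sym2 V} (hx : x ∈ e) (hx' : x' ∈ e) {v : V}
    (hv : v ∈ x) (hv' : v ∈ x') : x = x' := by
  obtain ⟨f, g, h1, h2, h3, h4, rfl⟩ := h
  obtain ⟨k, rfl⟩ := mem_brn.1 hx
  obtain ⟨l, rfl⟩ := mem_brn.1 hx'
  have key : k = l := by
    rcases Sym2.mem_iff.1 hv with rfl | rfl
    · rcases Sym2.mem_iff.1 hv' with h5 | h5
      · rw [← h1 k, h5, h1]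
      · exact absurd ((h3 k).symm.trans ((congrArg β h5).trans (h4 l))) hne
    · rcases Sym2.mem_iff.1 hv' with h5 | h5
      · exact absurd ((h3 l).symm.trans ((congrArg β h5).symm.trans (h4 k))) hne
      · exact h2 (congrArg χ h5)
  rw [key]

theorem cap_bs {β : V → B} {χ : V → Fin n} {Q : Finset (Finset (Sym2 V))}
    (h : Bun β χ Q) (h2 : Q.card ≤ 2) : Cap (bs Q) := by
  classical
  intro v
  have h3 : ((bs Q).filter fun e => v ∈ e) ⊆ Q.biUnion fun e => e.filter fun x => v ∈ x := by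
    intro x hx
    rw [Finset.mem_filter, mem_bs] at hx
    obtain ⟨⟨e, he, hx⟩, hv⟩ := hx
    rw [Finset.mem_biUnion]
    exact ⟨e, he, Finset.mem_filter.2 ⟨hx, hv⟩⟩
  have h4 : (Q.biUnion fun e => e.filter fun x => v ∈ x).card ≤ Q.card * 1 := by
    refine Finset.card_biUnion_le_card_mul _ _ _ fun e he => ?_
    obtain ⟨b, b', hne, hb⟩ := h.1 e he
    rw [Finset.card_le_one]
    intro x hx x' hx'
    rw [Finset.mem_filter] at hx hx'
    exact hb.one hne hx.1 hx'.1 hx.2 hx'.2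
  refine le_trans ?_ (h4.trans (by omega))
  convert Finset.card_le_card h3

/-- bars not at `y` -/
theorem bs_qn {β : V → B} {Q : Finset (Finset (Sym2 V))} {y : B} (u v : V)
    (h : s(u, v) ∈ bs (qn β Q y)) : β u ≠ y ∧ β v ≠ y := by
  obtain ⟨e, he, hx⟩ := mem_bs.1 h
  obtain ⟨h1, h2⟩ := mem_qn.1 he
  exact ⟨fun h3 => h2 ⟨_, hx, u, Sym2.mem_mk_left _ _, h3⟩,
    fun h3 => h2 ⟨_, hx, v, Sym2.mem_mk_right _ _, h3⟩⟩

/-- the bundles at `y` join `y` to another body -/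
theorem at_y [NeZero n] {β : V → B} {χ : V → Fin n} {Q : Finset (Finset (Sym2 V))} (h : Bun β χ Q) {y : B}
    {e : Finset (Sym2 V)} (he : e ∈ qy β Q y) : ∃ a, y ≠ a ∧ IsBd β χ y a e := by
  obtain ⟨h1, h2⟩ := mem_qy.1 he
  obtain ⟨b, b', hne, hb⟩ := h.1 e h1
  rcases (hb.tc y).1 h2 with rfl | rfl
  · exact ⟨b', hne, hb⟩
  · exact ⟨b, hne.symm, hb.symm⟩

theorem bs_qy [NeZero n] {β : V → B} {χ : V → Fin n} {Q : Finset (Finset (Sym2 V))} (h : Bun β χ Q) {y : B}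
    (u v : V) (hx : s(u, v) ∈ bs (qy β Q y)) :
    (β u = y ∧ β v ≠ y) ∨ (β u ≠ y ∧ β v = y) := by
  obtain ⟨e, he, hx⟩ := mem_bs.1 hx
  obtain ⟨a, hne, hb⟩ := at_y h he
  obtain ⟨u', v', rfl, rfl, h1⟩ := hb.br hx
  rcases Sym2.eq_iff.1 h1 with ⟨rfl, rfl⟩ | ⟨rfl, rfl⟩
  · exact Or.inl ⟨rfl, hne.symm⟩
  · exact Or.inr ⟨hne.symm, rfl⟩

/-- two bodies joined by a bundle -/
def Jn (β : V → B) (χ : V → Fin n) (Q : Finset (Finset (Sym2 V))) (a b : B) : Prop :=
  ∃ e ∈ Q, IsBd β χ a b e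

theorem Jn.symm {β : V → B} {χ : V → Fin n} {Q : Finset (Finset (Sym2 V))} {a b : B}
    (h : Jn β χ Q a b) : Jn β χ Q b a := by
  obtain ⟨e, he, h⟩ := h
  exact ⟨e, he, h.symm⟩

/-- a bar of a bundle inside a set of bodies -/
theorem bs_qi [NeZero n] {β : V → B} {χ : V → Fin n} {Q : Finset (Finset (Sym2 V))} (hQ : Bun β χ Q)
    {C : Finset B} {x : Sym2 V} (hx : x ∈ bs Q) (hC : ∀ v ∈ x, β v ∈ C) : x ∈ bs (qi β Q C) := by
  obtain ⟨e, he, hxe⟩ := mem_bs.1 hx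
  obtain ⟨b, b', hne, hb⟩ := hQ.1 e he
  obtain ⟨u, v, rfl, rfl, rfl⟩ := hb.br hxe
  exact mem_bs.2 ⟨e, (hb.mem_qi C).2 ⟨he, hC u (Sym2.mem_mk_left _ _),
    hC v (Sym2.mem_mk_right _ _)⟩, hxe⟩

open Classical in
/-- the crossing bundles -/
noncomputable def qc {B' : Type} (q : B → B') (β : V → B) (Q : Finset (Finset (Sym2 V))) :
    Finset (Finset (Sym2 V)) := Q.filter fun e => ∃ x ∈ e, x ∈ crs (q ∘ β) (bs Q)

theorem mem_qc {B' : Type} {q : B → B'} {β : V → B} {Q : Finset (Finset (Sym2 V))}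
    {e : Finset (Sym2 V)} : e ∈ qc q β Q ↔ e ∈ Q ∧ ∃ x ∈ e, x ∈ crs (q ∘ β) (bs Q) := by
  classical
  unfold qc
  rw [Finset.mem_filter]

theorem qc_ne {B' : Type} {q : B → B'} {β : V → B} {χ : V → Fin n}
    {Q : Finset (Finset (Sym2 V))} {e : Finset (Sym2 V)} (he : e ∈ qc q β Q) {b b' : B}
    (hb : IsBd β χ b b' e) : q b ≠ q b' := by
  obtain ⟨h1, x, hx, hc⟩ := mem_qc.1 he
  obtain ⟨u, v, rfl, rfl, rfl⟩ := hb.br hx
  exact (mem_crs'.1 hc).2

theorem IsBd.comp {B' : Type} (q : B → B') {β : V → B} {χ : V → Fin n} {b b' : B}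
    {e : Finset (Sym2 V)} (h : IsBd β χ b b' e) : IsBd (q ∘ β) χ (q b) (q b') e := by
  obtain ⟨f, g, h1, h2, h3, h4, h5⟩ := h
  exact ⟨f, g, h1, h2, fun k => congrArg q (h3 k), fun k => congrArg q (h4 k), h5⟩

theorem Bun.qc {B' : Type} (q : B → B') {β : V → B} {χ : V → Fin n}
    {Q : Finset (Finset (Sym2 V))} (h : Bun β χ Q) : Bun (q ∘ β) χ (qc q β Q) := by
  refine ⟨fun e he => ?_, fun e he e' he' hne => h.2 e (mem_qc.1 he).1 e' (mem_qc.1 he').1 hne⟩
  obtain ⟨b, b', -, hb⟩ := h.1 e (mem_qc.1 he).1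
  exact ⟨q b, q b', qc_ne he hb, hb.comp q⟩

theorem bs_qc {B' : Type} (q : B → B') {β : V → B} {χ : V → Fin n}
    {Q : Finset (Finset (Sym2 V))} (h : Bun β χ Q) : bs (qc q β Q) = crs (q ∘ β) (bs Q) := by
  ext x
  rw [mem_bs]
  constructor
  · rintro ⟨e, he, hx⟩
    obtain ⟨b, b', -, hb⟩ := h.1 e (mem_qc.1 he).1
    have h1 := qc_ne he hb
    obtain ⟨u, v, rfl, rfl, rfl⟩ := hb.br hx
    exact mem_crs'.2 ⟨mem_bs.2 ⟨e, (mem_qc.1 he).1, hx⟩, h1⟩
  · intro hx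
    obtain ⟨e, he, hxe⟩ := mem_bs.1 (mem_crs.1 hx).1
    exact ⟨e, mem_qc.2 ⟨he, x, hxe, hx⟩, hxe⟩

/-- the bars inside the classes of a map of the bodies -/
theorem ncr [Fintype B] {B' : Type} [Fintype B'] (β : V → B) (F : Finset (Sym2 V))
    (hF : Sparse β F) (q : B → B') (hq : Function.Surjective q) (c0 : B') (t : ℕ)
    (C : Finset B) (hC : ∀ b, b ∈ C ↔ q b = c0) (ht : (ins β F C).card + 6 + t ≤ 6 * C.card) :
    F.card + 6 * Fintype.card B' + t ≤ (crs (q ∘ β) F).card + 6 * Fintype.card B := by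
  classical
  have h1 : F \ crs (q ∘ β) F ⊆
      (univ : Finset B').biUnion fun c => ins β F (univ.filter fun b => q b = c) := by
    intro e
    induction e using Sym2.ind with
    | _ u v =>
      intro he
      rw [Finset.mem_sdiff, mem_crs'] at he
      have h2 : q (β u) = q (β v) := by
        by_contra h3
        exact he.2 ⟨he.1, h3⟩
      rw [Finset.mem_biUnion]
      refine ⟨q (β u), Finset.mem_univ _, ?_⟩
      rw [mem_ins']
      exact ⟨he.1, Finset.mem_filter.2 ⟨Finset.mem_univ _, rfl⟩,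
        Finset.mem_filter.2 ⟨Finset.mem_univ _, h2.symm⟩⟩
  have h2 := (Finset.card_le_card h1).trans Finset.card_biUnion_le
  have hC' : C = univ.filter fun b => q b = c0 := by
    ext b
    simp [hC]
  have h3 : ∑ c : B', ((ins β F (univ.filter fun b => q b = c)).card + 6 +
      if c = c0 then t else 0) ≤ ∑ c : B', 6 * (univ.filter fun b => q b = c).card := by
    apply Finset.sum_le_sum
    intro c _
    split_ifs with hc
    · rw [hc, ← hC']
      exact ht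
    · apply hF
      obtain ⟨b, hb⟩ := hq c
      exact ⟨b, Finset.mem_filter.2 ⟨Finset.mem_univ _, hb⟩⟩
  rw [Finset.sum_add_distrib, Finset.sum_add_distrib, ← Finset.mul_sum] at h3
  have h4 : ∑ c : B', (univ.filter fun b => q b = c).card = Fintype.card B := by
    rw [← Finset.card_univ, Finset.card_eq_sum_card_fiberwise (f := q) (t := univ)
      (fun _ _ => Finset.mem_univ _)]
  have h5 : ∑ c : B', 6 = 6 * Fintype.card B' := by simp [mul_comm]
  have h7 : ∑ c : B', (if c = c0 then t else 0) = t := by simp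
  have h6 := Finset.card_sdiff_add_card_eq_card (crs_subset (q ∘ β) F)
  omega

end Pool.Agent.Y530.TN
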