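import Mathlib
import Pool.Agent.Y530.TN.Prep
import Pool.Agent.Y530.TB.Stm

/-!
# Bundles of at least four bars: the induction
-/

set_option autoImplicit false

namespace Pool.Agent.Y530.TN

open Finset Module Pool.Agent.W824.BJ Pool.Agent.Y530.BB

section aux

variable {V B : Type} {n : ℕ}

theorem sparse_bs [NeZero n] {β : V → B} {χ : V → Fin n} {Q : Finset (Finset (Sym2 V))}
    (hQ : Bun β χ Q)
    (h : ∀ C : Finset B, 2 ≤ C.card → n * (qi β Q C).card + 6 ≤ 6 * C.card) :
    Sparse β (bs Q) := by
  classical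
  intro C hC
  have h1 : ins β (bs Q) C = bs (qi β Q C) := by
    ext x
    rw [mem_ins]
    constructor
    · exact fun h => bs_qi hQ h.1 h.2
    · intro hx
      obtain ⟨e, he, hxe⟩ := mem_bs.1 hx
      obtain ⟨h1, h2⟩ := mem_qi.1 he
      exact ⟨mem_bs.2 ⟨e, h1, hxe⟩, h2 x hxe⟩
  rw [h1, card_bs (hQ.mono (qi_subset β Q C))]
  by_cases h2 : 2 ≤ C.card
  · exact h C h2
  · have h3 : 0 < C.card := Finset.card_pos.2 hC
    have h4 : C.card = 1 := by omega
    have h5 : qi β Q C = ∅ := by
      rw [Finset.eq_empty_iff_forall_notMem]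
      intro e he
      obtain ⟨b, b', hne, hb⟩ := hQ.1 e (mem_qi.1 he).1
      obtain ⟨-, h6, h7⟩ := (hb.mem_qi C).1 he
      obtain ⟨c, rfl⟩ := Finset.card_eq_one.1 h4
      exact hne ((Finset.mem_singleton.1 h6).trans (Finset.mem_singleton.1 h7).symm)
    rw [h5, h4]
    simp

/-- the number of classes -/
theorem card_classes [Fintype B] {B' : Type} [Fintype B'] (q : B → B')
    (hq : Function.Surjective q) (C : Finset B) (c0 : B') (hC : ∀ b ∈ C, q b = c0) :
    Fintype.card B' + C.card ≤ Fintype.card B + 1 := by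
  classical
  have h1 : (univ : Finset B') ⊆ insert c0 ((univ \ C).image q) := by
    intro c _
    obtain ⟨b, rfl⟩ := hq c
    by_cases hb : b ∈ C
    · rw [hC b hb]
      exact Finset.mem_insert_self _ _
    · exact Finset.mem_insert_of_mem (Finset.mem_image_of_mem _
        (Finset.mem_sdiff.2 ⟨Finset.mem_univ _, hb⟩))
  have h2 := (Finset.card_le_card h1).trans (Finset.card_insert_le _ _)
  have h3 : ((univ \ C).image q).card ≤ (univ \ C).card := Finset.card_image_le
  have h4 := Finset.card_sdiff_add_card_eq_card (Finset.subset_univ C)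
  rw [Finset.card_univ] at h2 h4
  omega

end aux

section main

variable {V B : Type} [Fintype V] [Fintype B] {n : ℕ} [NeZero n]

/-- two bundles at a body whose neighbours are not joined -/
theorem stepD (h4 : 4 ≤ n) (h5 : n ≤ 5) (hext : S_EXT n) (hpick : S_PICK) (hcnt : S_CNT) {N : ℕ}
    (IH : ∀ m < N, PN n m) (β : V → B) (χ : V → Fin n) (Q : Finset (Finset (Sym2 V)))
    (hQ : Bun β χ Q) (hN : Q.card = N) (hNR : NR β (bs Q))
    {y a b : B} (hya : y ≠ a) (hyb : y ≠ b) (hab : a ≠ b) {e1 e2 : Finset (Sym2 V)}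
    (hy : ∀ e, e ∈ qy β Q y ↔ e = e1 ∨ e = e2) (h12 : e1 ≠ e2)
    (b1 : IsBd β χ y a e1) (b2 : IsBd β χ y b e2)
    (hnj : ¬ Jn β χ Q a b) : gb β (bs Q) + n * N = 6 * Fintype.card B := by
  classical
  have m1 : e1 ∈ Q := qy_subset β Q y ((hy _).2 (by simp))
  have m2 : e2 ∈ Q := qy_subset β Q y ((hy _).2 (by simp))
  -- proper subfamilies
  have sub : ∀ Q' ⊆ Q, Q'.card < N → gb β (bs Q') + n * Q'.card = 6 * Fintype.card B :=
    fun Q' h1 h2 => IH Q'.card h2 V B β χ Q' (hQ.mono h1) rfl (hNR.mono (bs_mono h1))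
  have cnt : ∀ C : Finset B, 2 ≤ C.card → ∀ Q' ⊆ Q, Q'.card < N →
      (∀ e ∈ Q', ∀ x ∈ e, ∀ v ∈ x, β v ∈ C) → n * Q'.card + 7 ≤ 6 * C.card := by
    intro C hC Q' h1 h2 h3
    have h6 := hcnt V B β (bs Q') C hC (by
      intro u v huv
      obtain ⟨e, he, hx⟩ := mem_bs.1 huv
      exact ⟨h3 e he _ hx u (Sym2.mem_mk_left _ _), h3 e he _ hx v (Sym2.mem_mk_right _ _)⟩)
      (hNR.mono (bs_mono h1))
    have h7 := sub Q' h1 h2
    omega
  obtain ⟨fa, A, ha1, ha2, ha3, ha4, he1⟩ := id b1
  obtain ⟨fb, Bb, hb1, hb2, hb3, hb4, he2⟩ := id b2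
  have iA : Function.Injective A := fun k l h => ha2 (congrArg χ h)
  have iB : Function.Injective Bb := fun k l h => hb2 (congrArg χ h)
  -- the new bundle
  have hnew : IsBd β χ a b (brn A Bb) := by
    have hbA : Function.Bijective (fun k => χ (A k)) := Finite.injective_iff_bijective.1 ha2
    let σ : Equiv.Perm (Fin n) := Equiv.ofBijective _ hbA
    have hσ : ∀ k, χ (A (σ.symm k)) = k := fun k => σ.apply_symm_apply k
    refine ⟨fun k => A (σ.symm k), fun k => Bb (σ.symm k), hσ, ?_, fun k => ha4 _, fun k => hb4 _,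
      ?_⟩
    · intro k l hkl
      exact σ.symm.injective (hb2 hkl)
    · ext x
      rw [mem_brn, mem_brn]
      constructor
      · rintro ⟨k, rfl⟩
        exact ⟨σ k, by rw [Equiv.symm_apply_apply]⟩
      · rintro ⟨k, rfl⟩
        exact ⟨σ.symm k, rfl⟩
  have hdis : ∀ e ∈ Q, Disjoint (brn A Bb) e := by
    intro e he
    rw [Finset.disjoint_left]
    intro x hx hx'
    obtain ⟨u, v, hu, hv, rfl⟩ := hnew.br hx
    obtain ⟨p, p', hne, hb⟩ := hQ.1 e he
    obtain ⟨u', v', hu', hv', h5⟩ := hb.br hx'
    rcases Sym2.eq_iff.1 h5 with ⟨rfl, rfl⟩ | ⟨rfl, rfl⟩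
    · rw [hu] at hu'
      rw [hv] at hv'
      subst hu'
      subst hv'
      exact hnj ⟨e, he, hb⟩
    · rw [hu] at hv'
      rw [hv] at hu'
      subst hu'
      subst hv'
      exact hnj ⟨e, he, hb.symm⟩
  have hnotin : brn A Bb ∉ qn β Q y := by
    intro h
    have h5 := hdis _ (qn_subset β Q y h)
    rw [Finset.disjoint_self_iff_empty] at h5
    have h6 : s(A 0, Bb 0) ∈ brn A Bb := mem_brn.2 ⟨0, rfl⟩
    rw [h5] at h6
    simp at h6
  have hbun : Bun β χ (insert (brn A Bb) (qn β Q y)) := by
    refine ⟨?_, ?_⟩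
    · intro e he
      rcases Finset.mem_insert.1 he with rfl | he
      · exact ⟨a, b, hab, hnew⟩
      · exact hQ.1 e (qn_subset β Q y he)
    · intro e he e' he' hne
      rcases Finset.mem_insert.1 he with rfl | he
      · rcases Finset.mem_insert.1 he' with rfl | he'
        · exact absurd rfl hne
        · exact hdis e' (qn_subset β Q y he')
      · rcases Finset.mem_insert.1 he' with rfl | he'
        · exact (hdis e (qn_subset β Q y he)).symm
        · exact hQ.2 e (qn_subset β Q y he) e' (qn_subset β Q y he') hne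
  have hcy : (qy β Q y).card = 2 := by
    refine Finset.card_eq_two.2 ⟨e1, e2, h12, ?_⟩
    ext e
    rw [hy]
    simp
  have hcyn := card_yn β Q y
  have hcard : (insert (brn A Bb) (qn β Q y)).card = N - 1 := by
    rw [Finset.card_insert_of_notMem hnotin]
    omega
  have hbs : bs Q = bs (qn β Q y) ∪ (brn fa A ∪ brn fb Bb) := by
    rw [bs_yn β Q y]
    ext x
    rw [Finset.mem_union, Finset.mem_union, Finset.mem_union,
      mem_bs (Q := qy β Q y)]
    simp only [hy, or_and_right, exists_or, exists_eq_left, he1, he2]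
  have hbp : bs (insert (brn A Bb) (qn β Q y)) = bs (qn β Q y) ∪ brn A Bb := by
    ext x
    rw [Finset.mem_union, mem_bs, mem_bs]
    simp only [Finset.mem_insert, exists_eq_or_imp]
    exact or_comm
  have hbm : ∀ x, x ∈ bs (insert (brn A Bb) (qn β Q y)) ↔ x ∈ bs (qn β Q y) ∨ x ∈ brn A Bb := by
    intro x
    rw [hbp, Finset.mem_union]
  have hext' : ∀ I : Finset (Fin n), I.card + 6 = 2 * n →
      gb β (bs Q) + 6 ≤ gb β (bs (qn β Q y) ∪ brI I A Bb) := by
    intro I hI
    have h := hext V B β χ y a b (bs (qn β Q y)) fa fb A Bb I hya hyb hab bs_qn ha3 hb3 ha1 hb1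
      ha4 hb4 iA iB hI
    rw [hbs]
    exact h
  have d0 := sub (qn β Q y) (qn_subset β Q y) (by omega)
  have hlow : 6 * Fintype.card B ≤ gb β (bs Q) + n * N := by
    have h1 := le_card β (bs Q) (gx V)
    rw [card_bs hQ, hN] at h1
    exact h1
  have hNn : n * N = n * (qn β Q y).card + 2 * n := by
    have : N = (qn β Q y).card + 2 := by omega
    rw [this]
    ring
  obtain ⟨I, hI, hI2⟩ := hpick n V B β (bs (qn β Q y)) A Bb (2 * n - 6) (by omega)
  have hI3 := hext' I (by omega)
  rcases hI2 with hI2 | hI2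
  · omega
  rw [hI2, ← hbp] at hI3
  -- the classes
  set Q1 := insert (brn A Bb) (qn β Q y) with hQ1
  set q := Quotient.mk (mt β (bs Q1)) with hq
  have hcr := bs_qc q hbun
  have hqs : (qc q β Q1).card ≤ Q1.card := by
    refine Finset.card_le_card fun e he => (mem_qc.1 he).1
  have hNR1 : NR (q ∘ β) (bs (qc q β Q1)) := by
    intro c c' hcc
    rw [hcr]
    exact NR_mt β (bs Q1) c c' hcc
  have hctr := IH (qc q β Q1).card (by omega) V (Quotient (mt β (bs Q1))) (q ∘ β) χ (qc q β Q1)
    (hbun.qc q) rfl hNR1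
  rw [hcr] at hctr
  rw [gb_mt β (bs Q1)] at hctr
  have hcc := card_bs (hbun.qc q)
  rw [hcr] at hcc
  have hsp : Sparse β (bs (qn β Q y)) := by
    refine sparse_bs (hQ.mono (qn_subset β Q y)) fun C hC => ?_
    have h1 := cnt C hC (qi β (qn β Q y) C) ((qi_subset _ _ _).trans (qn_subset β Q y))
      (lt_of_le_of_lt (Finset.card_le_card (qi_subset _ _ _)) (by omega))
      (fun e he => (mem_qi.1 he).2)
    omega
  have c0 := card_bs (hQ.mono (qn_subset β Q y))
  by_cases hqab : q a = q b
  · -- a and b are in one class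
    let C : Finset B := univ.filter fun c => q c = q a
    have hC : ∀ c, c ∈ C ↔ q c = q a := by
      intro c
      simp [C]
    have haC : a ∈ C := (hC a).2 rfl
    have hbC : b ∈ C := (hC b).2 hqab.symm
    have hyC : y ∉ C := by
      intro h
      have h1 : (mt β (bs Q1)) y a := Quotient.exact ((hC y).1 h)
      have h2 : (Pi.single y (fun _ => 1) : B → Fin 6 → PK V) ∈ GB β (bs Q1) := by
        intro u v huv
        have h3 : β u ≠ y ∧ β v ≠ y := by
          rw [hbp, Finset.mem_union] at huv
          rcases huv with huv | huv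
          · exact bs_qn u v huv
          · obtain ⟨k, hk⟩ := mem_brn.1 huv
            rcases Sym2.eq_iff.1 hk with ⟨rfl, rfl⟩ | ⟨rfl, rfl⟩
            · rw [ha4, hb4]
              exact ⟨hya.symm, hyb.symm⟩
            · rw [ha4, hb4]
              exact ⟨hyb.symm, hya.symm⟩
        rw [Pi.single_eq_of_ne h3.1, Pi.single_eq_of_ne h3.2, sub_zero, pr_zero]
      have h3 := h1 _ h2
      rw [Pi.single_eq_same, Pi.single_eq_of_ne hya.symm] at h3
      have h4 := congrFun h3 0
      exact one_ne_zero h4
    have hC2 : 2 ≤ C.card := by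
      have h1 : ({a, b} : Finset B) ⊆ C := by
        intro x hx
        simp only [Finset.mem_insert, Finset.mem_singleton] at hx
        rcases hx with rfl | rfl
        · exact haC
        · exact hbC
      have := Finset.card_le_card h1
      rwa [Finset.card_pair hab] at this
    have hCy : (insert y C).card = C.card + 1 := Finset.card_insert_of_notMem hyC
    have hadd : (qi β (qn β Q y) C).card + 2 ≤ (qi β Q (insert y C)).card := by
      have h5 : Disjoint (qi β (qn β Q y) C) {e1, e2} := by
        rw [Finset.disjoint_left]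
        intro e he he'
        have h6 := (mem_qn.1 (mem_qi.1 he).1).2
        simp only [Finset.mem_insert, Finset.mem_singleton] at he'
        rcases he' with rfl | rfl
        · exact h6 ((b1.tc y).2 (Or.inl rfl))
        · exact h6 ((b2.tc y).2 (Or.inl rfl))
      rw [← Finset.card_pair h12, ← Finset.card_union_of_disjoint h5]
      refine Finset.card_le_card fun e he => ?_
      rcases Finset.mem_union.1 he with he | he
      · exact qi_mono (qn_subset β Q y) (Finset.subset_insert _ _) he
      · simp only [Finset.mem_insert, Finset.mem_singleton] at he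
        rcases he with rfl | rfl
        · exact (b1.mem_qi _).2 ⟨m1, by simp, by simp [haC]⟩
        · exact (b2.mem_qi _).2 ⟨m2, by simp, by simp [hbC]⟩
    have hcrs : crs (q ∘ β) (bs Q1) = crs (q ∘ β) (bs (qn β Q y)) := by
      ext x
      rw [mem_crs, mem_crs, hbm]
      constructor
      · rintro ⟨h1 | h1, h2⟩
        · exact ⟨h1, h2⟩
        · obtain ⟨k, rfl⟩ := mem_brn.1 h1
          refine absurd ?_ h2
          intro u hu v hv
          have h3 : ∀ w ∈ s(A k, Bb k), (q ∘ β) w = q a := by
            intro w hw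
            rcases Sym2.mem_iff.1 hw with rfl | rfl
            · exact congrArg q (ha4 k)
            · exact (congrArg q (hb4 k)).trans hqab.symm
          rw [h3 u hu, h3 v hv]
      · rintro ⟨h1, h2⟩
        exact ⟨Or.inl h1, h2⟩
    by_cases hall : qi β Q (insert y C) = Q
    · -- all bundles are inside
      have h1 := hcnt V B β (bs Q) (insert y C) (by omega) (by
        intro u v huv
        obtain ⟨e, he, hx⟩ := mem_bs.1 huv
        rw [← hall] at he
        have h2 := (mem_qi.1 he).2
        exact ⟨h2 _ hx u (Sym2.mem_mk_left _ _), h2 _ hx v (Sym2.mem_mk_right _ _)⟩) hNR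
      have h2 := card_classes q Quotient.mk_surjective C (q a) (fun c hc => (hC c).1 hc)
      omega
    · have h1 : (qi β Q (insert y C)).card < N := by
        rw [← hN]
        exact Finset.card_lt_card ⟨qi_subset _ _ _, fun h => hall
          (Finset.Subset.antisymm (qi_subset _ _ _) h)⟩
      have h2 := cnt (insert y C) (by omega) (qi β Q (insert y C)) (qi_subset _ _ _) h1
        (fun e he => (mem_qi.1 he).2)
      have h3 : n * (qi β (qn β Q y) C).card + 2 * n ≤ n * (qi β Q (insert y C)).card := by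
        have h := Nat.mul_le_mul_left n hadd
        rw [Nat.mul_add] at h
        omega
      have h6 : ins β (bs (qn β Q y)) C = bs (qi β (qn β Q y) C) := by
        ext x
        rw [mem_ins]
        constructor
        · exact fun h => bs_qi (hQ.mono (qn_subset β Q y)) h.1 h.2
        · intro hx
          obtain ⟨e, he, hxe⟩ := mem_bs.1 hx
          obtain ⟨h1, h2⟩ := mem_qi.1 he
          exact ⟨mem_bs.2 ⟨e, h1, hxe⟩, h2 x hxe⟩
      have h7 := card_bs ((hQ.mono (qn_subset β Q y)).mono (qi_subset β (qn β Q y) C))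
      have h8 := ncr β (bs (qn β Q y)) hsp q Quotient.mk_surjective (q a) (2 * n - 5) C hC
        (by rw [h6, h7]; omega)
      rw [← hcrs] at h8
      omega
  · -- a and b are in different classes
    have hcrs : (crs (q ∘ β) (bs (qn β Q y))).card + n ≤ (crs (q ∘ β) (bs Q1)).card := by
      have h1 : (brn A Bb).card = n := hnew.card hab
      have h2 : Disjoint (crs (q ∘ β) (bs (qn β Q y))) (brn A Bb) := by
        rw [Finset.disjoint_left]
        intro x hx hx'
        obtain ⟨e, he, hxe⟩ := mem_bs.1 (mem_crs.1 hx).1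
        exact Finset.disjoint_left.1 (hdis e (qn_subset β Q y he)) hx' hxe
      rw [← h1, ← Finset.card_union_of_disjoint h2]
      refine Finset.card_le_card fun x hx => ?_
      rw [mem_crs, hbm]
      rcases Finset.mem_union.1 hx with hx | hx
      · exact ⟨Or.inl (mem_crs.1 hx).1, (mem_crs.1 hx).2⟩
      · refine ⟨Or.inr hx, fun h => hqab ?_⟩
        obtain ⟨k, rfl⟩ := mem_brn.1 hx
        have h3 := h (A k) (Sym2.mem_mk_left _ _) (Bb k) (Sym2.mem_mk_right _ _)
        have h4 : q (β (A k)) = q (β (Bb k)) := h3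
        rwa [ha4, hb4] at h4
    have h8 := noncross_le β (bs (qn β Q y)) hsp q Quotient.mk_surjective
    omega

/-- **Bundles of at least four bars** -/
theorem all_PN (h4 : 4 ≤ n) (hrow : TB.S_ROW) (hext : S_EXT n) (hpick : S_PICK)
    (hpair : S_PAIR) (hcnt : S_CNT) (htri : n ≤ 5 → S_TRI n) : ∀ N, PN n N := by
  intro N
  induction N using Nat.strong_induction_on with
  | _ N IH =>
    intro V B _ _ β χ Q hQ hN hNR
    classical
    rcases Finset.eq_empty_or_nonempty Q with rfl | hne
    · have h1 : gb β (bs ∅) = 6 * Fintype.card B := by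
        have h2 : bs (∅ : Finset (Finset (Sym2 V))) = ∅ := by
          ext x
          rw [mem_bs]
          simp
        rw [h2]
        unfold gb GB
        rw [BM_empty, finrank_top']
      rw [Finset.card_empty] at hN
      rw [h1, ← hN]
      omega
    have hNpos : 1 ≤ N := by
      rw [← hN]
      exact Finset.card_pos.2 hne
    -- pairs with at least six bars
    have pair : ∀ y a : B, y ≠ a → ∀ Q' ⊆ Q, Q'.card ≤ 2 → 6 ≤ n * Q'.card →
        (∀ e ∈ Q', IsBd β χ y a e) → False := by
      intro y a hya Q' h1 h2 h3 h6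
      have h7 := card_bs (hQ.mono h1)
      obtain ⟨F1, h8, h9⟩ := Finset.exists_subset_card_eq (show 6 ≤ (bs Q').card by omega)
      obtain ⟨m, hm, hm'⟩ := hNR y a hya
      refine hm' (hpair V B β y a (bs Q) F1 hya (h8.trans (bs_mono h1)) h9
        ((cap_bs (hQ.mono h1) h2).mono h8) ?_ m hm)
      intro u v huv
      obtain ⟨e, he, hx⟩ := mem_bs.1 (h8 huv)
      obtain ⟨u', v', hu, hv, h10⟩ := (h6 e he).br hx
      rcases Sym2.eq_iff.1 h10 with ⟨rfl, rfl⟩ | ⟨rfl, rfl⟩
      · exact Or.inl ⟨hu, hv⟩
      · exact Or.inr ⟨hv, hu⟩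
    obtain ⟨e0, he0⟩ := hne
    obtain ⟨c, c', hcc, hc0⟩ := hQ.1 e0 he0
    by_cases h5 : n ≤ 5
    swap
    · exfalso
      refine pair c c' hcc {e0} (by simpa using he0) (by simp) (by simp; omega) ?_
      intro e he
      rw [Finset.mem_singleton] at he
      rw [he]
      exact hc0
    -- a body with one or two bundles
    obtain ⟨y, hy1, hy2⟩ : ∃ y : B, 1 ≤ (qy β Q y).card ∧ (qy β Q y).card ≤ 2 := by
      by_contra hcon
      push Not at hcon
      have h1 := sum_dg hQ
      let P : Finset B := univ.filter fun y : B => 1 ≤ (qy β Q y).card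
      have hP : ∀ y, y ∈ P ↔ 1 ≤ (qy β Q y).card := by
        intro y
        simp [P]
      have h2 : ∑ y ∈ P, (qy β Q y).card = ∑ y : B, (qy β Q y).card := by
        refine Finset.sum_subset (Finset.subset_univ _) fun y _ hy => ?_
        rw [hP] at hy
        omega
      have h3 : P.card * 3 ≤ ∑ y ∈ P, (qy β Q y).card := by
        refine Finset.card_nsmul_le_sum P _ 3 fun y hy => ?_
        exact hcon y ((hP y).1 hy)
      have h6 : ∀ e ∈ Q, ∀ y, Tc β y e → y ∈ P := by
        intro e he y hy
        rw [hP]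
        exact Finset.card_pos.2 ⟨e, mem_qy.2 ⟨he, hy⟩⟩
      have hP2 : 2 ≤ P.card := by
        have h7 : ({c, c'} : Finset B) ⊆ P := by
          intro x hx
          simp only [Finset.mem_insert, Finset.mem_singleton] at hx
          rcases hx with rfl | rfl
          · exact h6 e0 he0 _ ((hc0.tc _).2 (Or.inl rfl))
          · exact h6 e0 he0 _ ((hc0.tc _).2 (Or.inr rfl))
        have := Finset.card_le_card h7
        rwa [Finset.card_pair hcc] at this
      have hce : (Q.erase e0).card + 1 = Q.card := Finset.card_erase_add_one he0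
      have hsub : Q.erase e0 ⊆ Q := Finset.erase_subset _ _
      have h8 := IH (Q.erase e0).card (by omega) V B β χ _ (hQ.mono hsub) rfl
        (hNR.mono (bs_mono hsub))
      have h9 := hcnt V B β (bs (Q.erase e0)) P hP2 (by
        intro u v huv
        obtain ⟨e, he, hx⟩ := mem_bs.1 huv
        exact ⟨h6 e (hsub he) _ ⟨_, hx, u, Sym2.mem_mk_left _ _, rfl⟩,
          h6 e (hsub he) _ ⟨_, hx, v, Sym2.mem_mk_right _ _, rfl⟩⟩) (hNR.mono (bs_mono hsub))
      have h10 : (Q.erase e0).card = N - 1 := by omega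
      rw [h10] at h8
      obtain ⟨M, rfl⟩ : ∃ M, N = M + 1 := ⟨N - 1, by omega⟩
      rw [Nat.add_sub_cancel] at h8
      have h11 : 4 * M ≤ n * M := Nat.mul_le_mul_right M h4
      omega
    by_cases hd : (qy β Q y).card = 1
    · have h3 := card_yn β Q y
      have h6 := IH (qn β Q y).card (by omega) V B β χ (qn β Q y)
        (hQ.mono (qn_subset β Q y)) rfl (hNR.mono (bs_mono (qn_subset β Q y)))
      have h7 := card_bs (hQ.mono (qy_subset β Q y))
      have h8 := hrow V B β y (bs (qn β Q y)) (bs (qy β Q y)) bs_qn (bs_qy hQ)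
        (by rw [h7, hd]; omega) (cap_bs (hQ.mono (qy_subset β Q y)) (by omega))
      have h9 : gb β (bs Q) = gb β (bs (qn β Q y) ∪ bs (qy β Q y)) := by
        congr 1
        rw [bs_yn β Q y]
      have h10 : gb β (bs (qn β Q y) ∪ bs (qy β Q y)) + (bs (qy β Q y)).card
          = gb β (bs (qn β Q y)) := by
        convert h8
      have h11 : n * N = n * (qn β Q y).card + n := by
        have : N = (qn β Q y).card + 1 := by omega
        rw [this]
        ring
      rw [hd, mul_one] at h7
      omega
    · have hcy : (qy β Q y).card = 2 := by omega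
      obtain ⟨e1, e2, h12, hy'⟩ := Finset.card_eq_two.1 hcy
      have hy : ∀ e, e ∈ qy β Q y ↔ e = e1 ∨ e = e2 := by
        intro e
        rw [hy']
        simp
      obtain ⟨a, hya, b1⟩ := at_y hQ (y := y) (e := e1) ((hy _).2 (by simp))
      obtain ⟨b, hyb, b2⟩ := at_y hQ (y := y) (e := e2) ((hy _).2 (by simp))
      have m1 : e1 ∈ Q := qy_subset β Q y ((hy _).2 (by simp))
      have m2 : e2 ∈ Q := qy_subset β Q y ((hy _).2 (by simp))
      by_cases hab : a = b
      · exfalso
        subst hab
        refine pair y a hya (qy β Q y) (qy_subset β Q y) hy2 (by rw [hcy]; omega) ?_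
        intro e he
        rcases (hy e).1 he with rfl | rfl
        · exact b1
        · exact b2
      by_cases jab : Jn β χ Q a b
      · exfalso
        obtain ⟨e3, m3, b3⟩ := jab
        obtain ⟨m, hm, hm'⟩ := hNR y a hya
        have hsub : ∀ e ∈ Q, e ⊆ bs Q := fun e he x hx => mem_bs.2 ⟨e, he, hx⟩
        exact hm' (htri h5 V B β χ y a b (bs Q) e1 e2 e3 hya hyb hab b1 b2 b3 (hsub _ m1)
          (hsub _ m2) (hsub _ m3) m hm)
      · exact stepD h4 h5 hext hpick hcnt IH β χ Q hQ hN hNR hya hyb hab hy h12 b1 b2 jab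

end main

end Pool.Agent.Y530.TN
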