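import Mathlib
import Pool.Agent.Y530.TN.Defs

/-!
# Adding bars with at most two bars at each end to a base system: the steps
-/

set_option autoImplicit false

namespace Pool.Agent.Y530.TN

open Finset Module Pool.Agent.W824.BJ Pool.Agent.Y530.BB

section steps

variable {V B : Type} [Fintype V] [Fintype B] [DecidableEq V]

/-- an isolated bar -/
theorem one (β : V → B) (F : Finset (Sym2 V)) {x y : V} (he : s(x, y) ∈ F) (hxy : x ≠ y)
    (h0 : gb β (F.erase s(x, y)) + (F.erase s(x, y)).card = 6 * Fintype.card B)
    (hsep : ∃ n ∈ GB β (F.erase s(x, y)), n (β x) ≠ n (β y))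
    (hx : ∀ e ∈ F, x ∈ e → e = s(x, y)) (hy : ∀ e ∈ F, y ∈ e → e = s(x, y)) :
    gb β F + F.card = 6 * Fintype.card B := by
  by_contra hcon
  have hlow := le_card β F (gx V)
  have hdef : gb β F = finrank (PK V) (BM β F (gx V)) := rfl
  obtain ⟨n, hn, hne⟩ := hsep
  set F0 := F.erase s(x, y) with hF0
  have hsub : F0 ⊆ F := Finset.erase_subset _ _
  have hcard : F0.card + 1 = F.card := Finset.card_erase_add_one he
  have hins : insert s(x, y) F0 = F := Finset.insert_erase he
  apply hne
  rw [← sub_eq_zero]
  apply eq_zero_of_pr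
  intro ξ η
  set p : V → Fin 4 → PK V := Function.update (Function.update (gx V) x ξ) y η with hp
  have hpx : p x = ξ := by
    rw [hp, Function.update_of_ne hxy, Function.update_self]
  have hpy : p y = η := by
    rw [hp, Function.update_self]
  have hM : BM β F0 p = GB β F0 := by
    apply BM_congr
    intro u v huv
    have h1 := Finset.mem_erase.1 huv
    have hux : u ≠ x := by
      rintro rfl
      exact h1.1 (hx _ h1.2 (Sym2.mem_mk_left _ _))
    have huy : u ≠ y := by
      rintro rfl
      exact h1.1 (hy _ h1.2 (Sym2.mem_mk_left _ _))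
    rw [hp, Function.update_of_ne huy, Function.update_of_ne hux]
  have h1 := gb_le β F p
  have h2 : BM β F p = BM β F0 p := by
    apply Submodule.eq_of_le_of_finrank_le (BM_anti hsub p)
    rw [hM]
    have d0 : finrank (PK V) (GB β F0) + F0.card = 6 * Fintype.card B := h0
    rw [← hdef] at hlow
    omega
  have h3 : n ∈ BM β F p := by
    rw [h2, hM]
    exact hn
  have h4 := h3 x y he
  rw [hpx, hpy] at h4
  exact h4

/-- the last bars of a path -/
theorem two (β : V → B) (F0 : Finset (Sym2 V)) {x y z : V}
    (h1 : s(x, z) ∉ F0) (h2 : s(x, y) ∉ insert s(x, z) F0) (hyz : y ≠ z) (hxy : x ≠ y)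
    (hxz : x ≠ z) (d0 : gb β F0 + F0.card = 6 * Fintype.card B)
    (d1 : gb β (insert s(x, z) F0) + (F0.card + 1) = 6 * Fintype.card B)
    (hsep : ∃ n ∈ GB β (insert s(x, z) F0), n (β x) ≠ n (β y))
    (hx : ∀ e ∈ F0, x ∉ e) (hy : ∀ e ∈ F0, y ∉ e) :
    gb β (insert s(x, y) (insert s(x, z) F0)) + (F0.card + 2) = 6 * Fintype.card B := by
  by_contra hcon
  have hlow := le_card β (insert s(x, y) (insert s(x, z) F0)) (gx V)
  have hdef : gb β (insert s(x, y) (insert s(x, z) F0)) =
    finrank (PK V) (BM β (insert s(x, y) (insert s(x, z) F0)) (gx V)) := rfl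
  have hc1 : (insert s(x, z) F0).card = F0.card + 1 := Finset.card_insert_of_notMem h1
  have hc2 : (insert s(x, y) (insert s(x, z) F0)).card = F0.card + 2 := by
    rw [Finset.card_insert_of_notMem h2, hc1]
  obtain ⟨n, hn, hne⟩ := hsep
  obtain ⟨hn0, hn1⟩ := mem_insert_iff.1 hn
  apply pathA (dif (GB β F0) (β y) (β x)) (dif (GB β F0) (β z) (β x)) (gx V z) (gx V x)
    ⟨n, hn0⟩
  · exact hn1
  · exact sub_ne_zero.2 hne
  · intro h3
    have h4 : BM β (insert s(x, z) F0) (gx V) = BM β F0 (gx V) := by
      apply le_antisymm (BM_anti (Finset.subset_insert _ _) _)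
      intro m hm
      rw [mem_insert_iff]
      exact ⟨hm, congrArg (fun f : GB β F0 →ₗ[PK V] PK V => f ⟨m, hm⟩) h3⟩
    unfold gb GB at d0 d1
    rw [h4] at d1
    omega
  · intro ξ η h3
    set p : V → Fin 4 → PK V := Function.update (Function.update (gx V) x ξ) y η with hp
    have hpx : p x = ξ := by
      rw [hp, Function.update_of_ne hxy, Function.update_self]
    have hpy : p y = η := by
      rw [hp, Function.update_self]
    have hpz : p z = gx V z := by
      rw [hp, Function.update_of_ne hyz.symm, Function.update_of_ne hxz.symm]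
    have hM : BM β F0 p = GB β F0 := by
      apply BM_congr
      intro u v huv
      have hux : u ≠ x := by
        rintro rfl
        exact hx _ huv (Sym2.mem_mk_left _ _)
      have huy : u ≠ y := by
        rintro rfl
        exact hy _ huv (Sym2.mem_mk_left _ _)
      rw [hp, Function.update_of_ne huy, Function.update_of_ne hux]
    have h4 := (two_iff hM x y x z).1 (by rw [hpx, hpy, hpz]; exact h3)
    have h5 := gb_le β (insert s(x, y) (insert s(x, z) F0)) p
    have d0' : finrank (PK V) (GB β F0) + F0.card = 6 * Fintype.card B := d0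
    rw [← hdef] at hlow
    omega

/-- the last bar of a cycle -/
theorem three (β : V → B) (F0 : Finset (Sym2 V)) {N : ℕ}
    {x y z u o : V} (h1 : s(y, u) ∉ F0) (h2 : s(x, z) ∉ insert s(y, u) F0)
    (h3 : s(x, y) ∉ insert s(x, z) (insert s(y, u) F0))
    (hN : F0.card + 3 = N) (hyz : y ≠ z) (hxu : x ≠ u) (hxy : x ≠ y) (hxz : x ≠ z)
    (hyu : y ≠ u) (d0 : finrank (PK V) (GB β F0) + F0.card = 6 * Fintype.card B)
    (hx : ∀ e ∈ F0, x ∉ e) (hy : ∀ e ∈ F0, y ∉ e) (hz : u = z → ∀ e ∈ F0, z ∉ e)
    (hβ : β o = β x)
    (hP2 : gb β (insert s(x, y) (insert s(o, z) (insert s(y, u) F0))) + N =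
      6 * Fintype.card B) :
    gb β (insert s(x, y) (insert s(x, z) (insert s(y, u) F0))) + N = 6 * Fintype.card B := by
  by_contra hcon
  set F := insert s(x, y) (insert s(x, z) (insert s(y, u) F0)) with hF
  have hlow := le_card β F (gx V)
  have hdef : gb β F = finrank (PK V) (BM β F (gx V)) := rfl
  rw [← hdef] at hlow
  have hc : F.card = F0.card + 3 := by
    rw [hF, Finset.card_insert_of_notMem h3, Finset.card_insert_of_notMem h2,
      Finset.card_insert_of_notMem h1]
  have hI3 : I3 (PK V) (fn (dif (GB β F0) (β y) (β x)) (gx V x) (gx V y))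
      (fn (dif (GB β F0) (β z) (β x)) (gx V o) (gx V z))
      (fn (dif (GB β F0) (β u) (β y)) (gx V y) (gx V u)) := by
    have h4 := (three_iff (β := β) (F := F0) (y := gx V) (M := GB β F0) rfl x y o z y u).2 (by
      have h5 : gb β (insert s(x, y) (insert s(o, z) (insert s(y, u) F0))) = finrank (PK V)
        (BM β (insert s(x, y) (insert s(o, z) (insert s(y, u) F0))) (gx V)) := rfl
      omega)
    rw [hβ] at h4
    exact h4
  by_cases huz : u = z
  · subst huz
    have hzF := hz rfl
    have hall : ∀ ξ η ζ, ¬ I3 (PK V) (fn (dif (GB β F0) (β y) (β x)) ξ η)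
        (fn (dif (GB β F0) (β u) (β x)) ξ ζ) (fn (dif (GB β F0) (β u) (β y)) η ζ) := by
      intro ξ η ζ h4
      set p : V → Fin 4 → PK V :=
        Function.update (Function.update (Function.update (gx V) x ξ) y η) u ζ with hp
      have hpx : p x = ξ := by
        rw [hp, Function.update_of_ne hxz, Function.update_of_ne hxy, Function.update_self]
      have hpy : p y = η := by
        rw [hp, Function.update_of_ne hyz, Function.update_self]
      have hpz : p u = ζ := by
        rw [hp, Function.update_self]
      have hM : BM β F0 p = GB β F0 := by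
        apply BM_congr
        intro a b hab
        have hax : a ≠ x := by
          rintro rfl
          exact hx _ hab (Sym2.mem_mk_left _ _)
        have hay : a ≠ y := by
          rintro rfl
          exact hy _ hab (Sym2.mem_mk_left _ _)
        have haz : a ≠ u := by
          rintro rfl
          exact hzF _ hab (Sym2.mem_mk_left _ _)
        rw [hp, Function.update_of_ne haz, Function.update_of_ne hay, Function.update_of_ne hax]
      have h5 := (three_iff hM x y x u y u).1 (by rw [hpx, hpy, hpz]; exact h4)
      have h6 := gb_le β F p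
      rw [← hF] at h5
      omega
    have hI2 : ∀ η ζ, ¬ I2 (PK V) (fn (dif (GB β F0) (β u) (β x)) η ζ)
        (fn (dif (GB β F0) (β u) (β y)) η ζ) := by
      intro η ζ
      have h4 := cycA (dif (GB β F0) (β y) (β x)) (dif (GB β F0) (β u) (β x))
        (dif (GB β F0) (β u) (β y)) (gx V x) (gx V o) (gx V y) (η - gx V y) (gx V u)
        (ζ - gx V u) (gx V u) (ζ - gx V u) hI3 (fun t ξ => hall _ _ _)
      rw [add_sub_cancel, add_sub_cancel] at h4
      exact h4
    obtain ⟨lam, hl, h4⟩ := cycB1 (dif (GB β F0) (β u) (β x)) (dif (GB β F0) (β u) (β y))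
      (gx V u) (gx V o) (gx V y) hI3.tail hI2
    have hD : ∀ n, dif (GB β F0) (β y) (β x) n = (lam - 1) • dif (GB β F0) (β u) (β y) n := by
      intro n
      have h5 : dif (GB β F0) (β y) (β x) n = dif (GB β F0) (β u) (β x) n -
          dif (GB β F0) (β u) (β y) n := by
        rw [dif_apply, dif_apply, dif_apply]
        abel
      rw [h5, h4 n, sub_smul, one_smul]
    have hl1 : lam ≠ 1 := by
      intro h5
      have h6 : fn (dif (GB β F0) (β y) (β x)) (gx V x) (gx V y) = 0 := by
        refine LinearMap.ext fun n => ?_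
        rw [fn_apply, hD n, h5, sub_self, zero_smul, pr_zero]
        rfl
      have h7 := hI3 1 0 0 (by rw [h6]; simp)
      exact one_ne_zero h7.1
    have h5 := lie_bar β F0 (v1 := β u) (v2 := β y) (v3 := β x) lam hl hl1
      (fun n hn => h4 ⟨n, hn⟩)
    apply rank2_dep (dif (GB β F0) (β u) (β y)) h5 _ _ ((li3_iff _ _ _).2 hI3)
    intro i l hlz
    fin_cases i
    · change pr (dif (GB β F0) (β y) (β x) l) _ _ = 0
      rw [hD l, hlz, smul_zero, pr_zero]
    · change pr (dif (GB β F0) (β u) (β x) l) _ _ = 0
      rw [h4 l, hlz, smul_zero, pr_zero]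
    · change pr (dif (GB β F0) (β u) (β y) l) _ _ = 0
      rw [hlz, pr_zero]
  · apply cycLong (dif (GB β F0) (β y) (β x)) (dif (GB β F0) (β z) (β x))
      (dif (GB β F0) (β u) (β y)) (gx V x) (gx V o) (gx V y) (gx V z) (gx V u)
      (I2_gx (Ne.symm huz)) hI3
    intro ξ η h4
    set p : V → Fin 4 → PK V := Function.update (Function.update (gx V) x ξ) y η with hp
    have hpx : p x = ξ := by
      rw [hp, Function.update_of_ne hxy, Function.update_self]
    have hpy : p y = η := by
      rw [hp, Function.update_self]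
    have hpz : p z = gx V z := by
      rw [hp, Function.update_of_ne hyz.symm, Function.update_of_ne hxz.symm]
    have hpu : p u = gx V u := by
      rw [hp, Function.update_of_ne hyu.symm, Function.update_of_ne hxu.symm]
    have hM : BM β F0 p = GB β F0 := by
      apply BM_congr
      intro a b hab
      have hax : a ≠ x := by
        rintro rfl
        exact hx _ hab (Sym2.mem_mk_left _ _)
      have hay : a ≠ y := by
        rintro rfl
        exact hy _ hab (Sym2.mem_mk_left _ _)
      rw [hp, Function.update_of_ne hay, Function.update_of_ne hax]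
    have h5 := (three_iff hM x y x z y u).1 (by rw [hpx, hpy, hpz, hpu]; exact h4)
    have h6 := gb_le β F p
    rw [← hF] at h5
    omega

end steps

end Pool.Agent.Y530.TN
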