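import Mathlib
import Pool.Agent.Y530.TN.RelStep

/-!
# Adding bars with at most two bars at each end to a base system
-/

set_option autoImplicit false

namespace Pool.Agent.Y530.TN

open Finset Module Pool.Agent.W824.BJ Pool.Agent.Y530.BB

section defs

variable {V : Type}

open Classical in
/-- `F0` is a base of `F`: at each point either all bars are in `F0`, or there are at most two bars
and none of them is in `F0` -/
def Ms (F0 F : Finset (Sym2 V)) : Prop :=
  F0 ⊆ F ∧ ∀ v, (∀ e ∈ F, v ∈ e → e ∈ F0) ∨
    ((∀ e ∈ F0, v ∉ e) ∧ (F.filter fun e => v ∈ e).card ≤ 2)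

theorem Ms.mono {F0 F F' : Finset (Sym2 V)} (h : Ms F0 F') (h1 : F0 ⊆ F) (h2 : F ⊆ F') :
    Ms F0 F := by
  classical
  refine ⟨h1, fun v => ?_⟩
  rcases h.2 v with h3 | ⟨h3, h4⟩
  · exact Or.inl fun e he => h3 e (h2 he)
  · exact Or.inr ⟨h3, (Finset.card_le_card (Finset.filter_subset_filter _ h2)).trans h4⟩

theorem Ms.end {F0 F : Finset (Sym2 V)} (h : Ms F0 F) {e : Sym2 V} (he : e ∈ F) (hn : e ∉ F0)
    {v : V} (hv : v ∈ e) : ∀ e' ∈ F0, v ∉ e' := by
  rcases h.2 v with h1 | h1
  · exact absurd (h1 e he hv) hn
  · exact h1.1

theorem Ms.two {F0 F : Finset (Sym2 V)} (h : Ms F0 F) {x : V} {e1 e2 : Sym2 V} (h1 : e1 ∈ F)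
    (h2 : e2 ∈ F) (hb : e1 ∉ F0) (hne : e1 ≠ e2) (hx1 : x ∈ e1) (hx2 : x ∈ e2) :
    ∀ e ∈ F, x ∈ e → e = e1 ∨ e = e2 := by
  classical
  intro e he hx
  have h0 : (F.filter fun e => x ∈ e).card ≤ 2 := by
    rcases h.2 x with h5 | h5
    · exact absurd (h5 e1 h1 hx1) hb
    · convert h5.2
  have h3 : ({e1, e2} : Finset (Sym2 V)) ⊆ F.filter fun e => x ∈ e := by
    intro e' he'
    rcases Finset.mem_insert.1 he' with rfl | h
    · exact Finset.mem_filter.2 ⟨h1, hx1⟩
    · rw [Finset.mem_singleton.1 h]
      exact Finset.mem_filter.2 ⟨h2, hx2⟩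
  have h4 := Finset.eq_of_subset_of_card_le h3 (by
    rw [Finset.card_pair hne]
    exact h0)
  have h5 : e ∈ F.filter fun e => x ∈ e := Finset.mem_filter.2 ⟨he, hx⟩
  rw [← h4, Finset.mem_insert, Finset.mem_singleton] at h5
  exact h5

end defs

/-- two bodies which are separated by a motion remain so when points are added -/
theorem sep_mp {V B V' : Type} [Fintype V] [Fintype B] [Fintype V'] (j : V ↪ V') (β' : V' → B)
    (F : Finset (Sym2 V)) {b b' : B} (h : ∃ m ∈ GB (β' ∘ j) F, m b ≠ m b') :
    ∃ m ∈ GB β' (mpF j F), m b ≠ m b' := by
  classical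
  obtain ⟨m, hm, hne⟩ := h
  by_contra hcon
  push Not at hcon
  have hbb : b ≠ b' := fun h => hne (by rw [h])
  let q : B → {a : B // a ≠ b'} := fun a => if h : a = b' then ⟨b, hbb⟩ else ⟨a, h⟩
  have hq1 : ∀ a (h : a ≠ b'), q a = ⟨a, h⟩ := fun a h => by
    change (if h : a = b' then (⟨b, hbb⟩ : {a : B // a ≠ b'}) else ⟨a, h⟩) = _
    rw [dif_neg h]
  have hq2 : q b' = ⟨b, hbb⟩ := by
    change (if h : b' = b' then (⟨b, hbb⟩ : {a : B // a ≠ b'}) else ⟨b', h⟩) = _
    rw [dif_pos rfl]
  have hq : Function.Surjective q := fun ⟨a, ha⟩ => ⟨a, hq1 a ha⟩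
  have h1 : gb (q ∘ β') (mpF j F) = gb β' (mpF j F) := by
    refine finrank_pl_eq hq β' (mpF j F) (gx V') fun n hn a c hac => ?_
    by_cases ha : a = b'
    · subst ha
      by_cases hc : c = a
      · rw [hc]
      · rw [hq2, hq1 c hc] at hac
        have h2 : b = c := congrArg Subtype.val hac
        rw [← h2]
        exact (hcon n hn).symm
    · by_cases hc : c = b'
      · subst hc
        rw [hq2, hq1 a ha] at hac
        have h2 : a = b := congrArg Subtype.val hac
        rw [h2]
        exact hcon n hn
      · rw [hq1 a ha, hq1 c hc] at hac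
        have h2 : a = c := congrArg Subtype.val hac
        rw [h2]
  rw [gb_mp, gb_mp] at h1
  have h3 : (GB (q ∘ (β' ∘ j)) F).map (pl q) = GB (β' ∘ j) F := by
    apply Submodule.eq_of_le_of_finrank_eq
    · rintro _ ⟨n, hn, rfl⟩
      exact (pl_mem q).1 hn
    · rw [← (Submodule.equivMapOfInjective (pl q) (pl_inj hq) _).finrank_eq]
      exact h1
  rw [← h3] at hm
  obtain ⟨n, -, rfl⟩ := hm
  apply hne
  change n (q b) = n (q b')
  rw [hq1 b hbb, hq2]

/-- the relative theorem for systems with `N` bars -/
def RL (N : ℕ) : Prop := ∀ (V B : Type) [Fintype V] [Fintype B] (β : V → B)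
  (F0 F : Finset (Sym2 V)), F.card = N → Ms F0 F → (∀ u v, s(u, v) ∈ F → β u ≠ β v) → NR β F →
    gb β F0 + F0.card = 6 * Fintype.card B → gb β F + N = 6 * Fintype.card B

/-- **Bars with at most two bars at each end** are independent over the base system if any two
bodies are separated by a motion. -/
theorem rel_all : ∀ N, RL N := by
  intro N
  induction N using Nat.strong_induction_on with
  | _ N IH =>
    intro V B _ _ β F0 F hN hM hloop hNR hbase
    classical
    have sub : ∀ F', F0 ⊆ F' → F' ⊆ F → F'.card < N →
        gb β F' + F'.card = 6 * Fintype.card B := fun F' h1 h2 h3 =>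
      IH F'.card h3 V B β F0 F' rfl (hM.mono h1 h2) (fun u v huv => hloop u v (h2 huv))
        (hNR.mono h2) hbase
    by_cases hall : F ⊆ F0
    · have h1 : F = F0 := Finset.Subset.antisymm hall hM.1
      rw [← h1] at hbase
      omega
    rw [Finset.subset_iff] at hall
    push Not at hall
    obtain ⟨e, he, hnb⟩ := hall
    induction e using Sym2.ind with
    | _ x y =>
    have hxy : x ≠ y := fun h => hloop x y he (by rw [h])
    have hxb := hM.end he hnb (Sym2.mem_mk_left _ _)
    have hyb := hM.end he hnb (Sym2.mem_mk_right _ _)
    -- two bars at x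
    have caseB : ∀ x y z : V, s(x, y) ∈ F → s(x, y) ∉ F0 → s(x, z) ∈ F → y ≠ z →
        (∀ e ∈ F, y ∈ e → e = s(x, y)) → gb β F + N = 6 * Fintype.card B := by
      intro x y z he hnb hz hyz hy
      have hxy : x ≠ y := fun h => hloop x y he (by rw [h])
      have hxz : x ≠ z := fun h => hloop x z hz (by rw [h])
      have hxb := hM.end he hnb (Sym2.mem_mk_left _ _)
      have hne : s(x, y) ≠ s(x, z) := by
        intro h
        rcases Sym2.eq_iff.1 h with ⟨-, h⟩ | ⟨ha, hb⟩
        · exact hyz h
        · exact hyz (hb.trans ha)
      have hx := hM.two he hz hnb hne (Sym2.mem_mk_left _ _) (Sym2.mem_mk_left _ _)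
      set F1 := (F.erase s(x, y)).erase s(x, z) with hF1
      have e1 : insert s(x, z) F1 = F.erase s(x, y) :=
        Finset.insert_erase (Finset.mem_erase.2 ⟨hne.symm, hz⟩)
      have e2 : insert s(x, y) (insert s(x, z) F1) = F := by
        rw [e1]
        exact Finset.insert_erase he
      have c1 : (F.erase s(x, y)).card + 1 = F.card := Finset.card_erase_add_one he
      have c2 : F1.card + 1 = (F.erase s(x, y)).card :=
        Finset.card_erase_add_one (Finset.mem_erase.2 ⟨hne.symm, hz⟩)
      have hb1 : F0 ⊆ F1 := by
        intro e he'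
        rw [hF1, Finset.mem_erase, Finset.mem_erase]
        exact ⟨fun h => hxb e he' (h ▸ Sym2.mem_mk_left _ _),
          fun h => hxb e he' (h ▸ Sym2.mem_mk_left _ _), hM.1 he'⟩
      have hs1 : F1 ⊆ F := (Finset.erase_subset _ _).trans (Finset.erase_subset _ _)
      have d0 := sub F1 hb1 hs1 (by omega)
      have d1 := sub (F.erase s(x, y)) (hb1.trans (Finset.erase_subset _ _))
        (Finset.erase_subset _ _) (by omega)
      obtain ⟨m, hm, hm'⟩ := hNR (β x) (β y) (hloop x y he)
      have h := TN.two β F1 (x := x) (y := y) (z := z) (Finset.notMem_erase _ _)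
        (by rw [e1]; exact Finset.notMem_erase _ _) hyz hxy hxz d0 (by rw [e1]; omega)
        ⟨m, by rw [e1]; exact BM_anti (Finset.erase_subset _ _) _ hm, hm'⟩
        (by
          intro e he' hxe
          rw [hF1, Finset.mem_erase, Finset.mem_erase] at he'
          rcases hx e he'.2.2 hxe with h | h
          · exact he'.2.1 h
          · exact he'.1 h)
        (by
          intro e he' hye
          rw [hF1, Finset.mem_erase, Finset.mem_erase] at he'
          exact he'.2.1 (hy e he'.2.2 hye))
      rw [e2] at h
      omega
    by_cases hx : ∃ z, z ≠ y ∧ s(x, z) ∈ F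
    · obtain ⟨z, hzy, hz⟩ := hx
      by_cases hy : ∃ u, u ≠ x ∧ s(y, u) ∈ F
      · obtain ⟨u, hux, hu⟩ := hy
        have hxz : x ≠ z := fun h => hloop x z hz (by rw [h])
        have hyu : y ≠ u := fun h => hloop y u hu (by rw [h])
        have n12 : s(x, y) ≠ s(x, z) := by
          intro h
          rcases Sym2.eq_iff.1 h with ⟨-, h⟩ | ⟨ha, hb⟩
          · exact hzy h.symm
          · exact hxy hb.symm
        have n13 : s(x, y) ≠ s(y, u) := by
          intro h
          rcases Sym2.eq_iff.1 h with ⟨h, -⟩ | ⟨h, -⟩
          · exact hxy h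
          · exact hux h.symm
        have n23 : s(x, z) ≠ s(y, u) := by
          intro h
          rcases Sym2.eq_iff.1 h with ⟨h, -⟩ | ⟨h, -⟩
          · exact hxy h
          · exact hux h.symm
        have hx2 := hM.two he hz hnb n12 (Sym2.mem_mk_left _ _) (Sym2.mem_mk_left _ _)
        have hy2 := hM.two he hu hnb n13 (Sym2.mem_mk_right _ _) (Sym2.mem_mk_left _ _)
        have hnb2 : s(x, z) ∉ F0 := fun h => hxb _ h (Sym2.mem_mk_left _ _)
        have hnb3 : s(y, u) ∉ F0 := fun h => hyb _ h (Sym2.mem_mk_left _ _)
        have hzb := hM.end hz hnb2 (Sym2.mem_mk_right _ _)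
        set F1 := ((F.erase s(x, y)).erase s(x, z)).erase s(y, u) with hF1
        have m0 : ∀ {e}, e ∈ F1 → e ≠ s(x, y) ∧ e ≠ s(x, z) ∧ e ≠ s(y, u) ∧ e ∈ F := by
          intro e he
          rw [hF1, Finset.mem_erase, Finset.mem_erase, Finset.mem_erase] at he
          exact ⟨he.2.2.1, he.2.1, he.1, he.2.2.2⟩
        have i2 : s(x, z) ∈ F.erase s(x, y) := Finset.mem_erase.2 ⟨n12.symm, hz⟩
        have i3 : s(y, u) ∈ (F.erase s(x, y)).erase s(x, z) :=
          Finset.mem_erase.2 ⟨n23.symm, Finset.mem_erase.2 ⟨n13.symm, hu⟩⟩
        have e0 : insert s(y, u) F1 = (F.erase s(x, y)).erase s(x, z) :=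
          Finset.insert_erase i3
        have e1 : insert s(x, z) (insert s(y, u) F1) = F.erase s(x, y) := by
          rw [e0]
          exact Finset.insert_erase i2
        have e2 : insert s(x, y) (insert s(x, z) (insert s(y, u) F1)) = F := by
          rw [e1]
          exact Finset.insert_erase he
        have c1 : (F.erase s(x, y)).card + 1 = F.card := Finset.card_erase_add_one he
        have c2 : ((F.erase s(x, y)).erase s(x, z)).card + 1 = (F.erase s(x, y)).card :=
          Finset.card_erase_add_one i2
        have c3 : F1.card + 1 = ((F.erase s(x, y)).erase s(x, z)).card :=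
          Finset.card_erase_add_one i3
        have hb1 : F0 ⊆ F1 := by
          intro e he'
          rw [hF1, Finset.mem_erase, Finset.mem_erase, Finset.mem_erase]
          exact ⟨fun h => hnb3 (h ▸ he'), fun h => hnb2 (h ▸ he'), fun h => hnb (h ▸ he'),
            hM.1 he'⟩
        have hs1 : F1 ⊆ F := fun e he' => (m0 he').2.2.2
        have d0 := sub F1 hb1 hs1 (by omega)
        set F2 := F.erase s(x, z) with hF2
        have c4 : F2.card + 1 = F.card := Finset.card_erase_add_one hz
        have hb2 : F0 ⊆ F2 := fun e he' =>
          Finset.mem_erase.2 ⟨fun h => hnb2 (h ▸ he'), hM.1 he'⟩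
        have hs2 : F2 ⊆ F := Finset.erase_subset _ _
        have d2 := sub F2 hb2 hs2 (by omega)
        -- one point more in the body of x
        let j : V ↪ Option V := Function.Embedding.some
        let β' : Option V → B := fun a => a.elim (β x) β
        have hβj : β' ∘ j = β := rfl
        have gmp : ∀ F', gb β' (mpF j F') = gb β F' := fun F' => gb_mp j β' F'
        have hno : ∀ F', ∀ e ∈ mpF j F', (none : Option V) ∉ e := by
          intro F' e he' hn
          obtain ⟨e0, -, rfl⟩ := mem_mpF' he'
          obtain ⟨a, -, ha⟩ := Sym2.mem_map.1 hn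
          cases ha
        have hmem : ∀ F' (v : V), (∀ e ∈ F', v ∉ e) → ∀ e ∈ mpF j F', j v ∉ e := by
          intro F' v hv e he' hn
          obtain ⟨e0, h0, rfl⟩ := mem_mpF' he'
          obtain ⟨a, ha, haw⟩ := Sym2.mem_map.1 hn
          rw [j.injective haw] at ha
          exact hv e0 h0 ha
        have hins : ∀ (a b : V) F', mpF j (insert s(a, b) F') = insert s(j a, j b) (mpF j F') := by
          intro a b F'
          unfold mpF
          rw [Finset.map_insert]
          rfl
        have hcm : ∀ F', (mpF j F').card = F'.card := fun F' => Finset.card_map _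
        have hsepz : ∃ m ∈ GB β' (mpF j F2), m (β' (j z)) ≠ m (β' none) := by
          apply sep_mp j β' F2
          rw [hβj]
          obtain ⟨m, hm, hm'⟩ := hNR (β z) (β x) (fun h => hloop x z hz h.symm)
          exact ⟨m, BM_anti hs2 _ hm, hm'⟩
        have hP0 : gb β' (insert s(j z, none) (mpF j F2)) + N = 6 * Fintype.card B := by
          by_cases hw : ∃ w, w ≠ x ∧ s(z, w) ∈ F
          · obtain ⟨w, hwx, hw⟩ := hw
            have hzw : z ≠ w := fun h => hloop z w hw (by rw [h])
            have n4 : s(x, z) ≠ s(z, w) := by
              intro h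
              rcases Sym2.eq_iff.1 h with ⟨h, -⟩ | ⟨h, -⟩
              · exact hxz h
              · exact hwx h.symm
            have hz2 := hM.two hz hw hnb2 n4 (Sym2.mem_mk_right _ _) (Sym2.mem_mk_left _ _)
            have hw2 : s(z, w) ∈ F2 := Finset.mem_erase.2 ⟨n4.symm, hw⟩
            have c5 : (F2.erase s(z, w)).card + 1 = F2.card := Finset.card_erase_add_one hw2
            have e5 : insert s(z, w) (F2.erase s(z, w)) = F2 := Finset.insert_erase hw2
            have hb3 : F0 ⊆ F2.erase s(z, w) := fun e he' => Finset.mem_erase.2
              ⟨fun h => hzb e he' (h ▸ Sym2.mem_mk_left _ _), hb2 he'⟩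
            have d3 := sub (F2.erase s(z, w)) hb3 ((Finset.erase_subset _ _).trans hs2)
              (by omega)
            have e6 : insert s(j z, j w) (mpF j (F2.erase s(z, w))) = mpF j F2 := by
              rw [← hins, e5]
            have h := TN.two β' (mpF j (F2.erase s(z, w))) (x := j z) (y := none) (z := j w)
              (fun h => Finset.notMem_erase _ _ (mem_mpF.1 h))
              (by
                rw [e6]
                exact fun h => hno _ _ h (Sym2.mem_mk_right _ _))
              (by simp [j]) (by simp [j]) (fun h => hzw (j.injective h))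
              (by rw [gmp, hcm]; exact d3) (by rw [e6, gmp, hcm]; omega)
              (by rw [e6]; exact hsepz)
              (by
                refine hmem _ z ?_
                intro e he' hze
                rw [hF2, Finset.mem_erase, Finset.mem_erase] at he'
                rcases hz2 e he'.2.2 hze with h | h
                · exact he'.2.1 h
                · exact he'.1 h)
              (hno _)
            rw [e6, hcm] at h
            omega
          · push Not at hw
            have hnm : s(j z, none) ∉ mpF j F2 := fun h => hno _ _ h (Sym2.mem_mk_right _ _)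
            have e7 : (insert s(j z, none) (mpF j F2)).erase s(j z, none) = mpF j F2 :=
              Finset.erase_insert hnm
            have h := TN.one β' (insert s(j z, none) (mpF j F2)) (x := j z) (y := none)
              (Finset.mem_insert_self _ _) (by simp [j])
              (by rw [e7, gmp, hcm]; exact d2) (by rw [e7]; exact hsepz)
              (by
                intro e he' hze
                rcases Finset.mem_insert.1 he' with h | h
                · exact h
                · refine absurd hze (hmem F2 z ?_ e h)
                  rintro e' he'' ⟨w, rfl⟩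
                  rw [hF2, Finset.mem_erase] at he''
                  by_cases hwx : w = x
                  · apply he''.1
                    rw [hwx, Sym2.eq_swap]
                  · exact hw w hwx he''.2)
              (by
                intro e he' hze
                rcases Finset.mem_insert.1 he' with h | h
                · exact h
                · exact absurd hze (hno _ e h))
            rw [Finset.card_insert_of_notMem hnm, hcm] at h
            omega
        have hset : insert s(j x, j y) (insert s((none : Option V), j z) (insert s(j y, j u)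
            (mpF j F1))) = insert s(j z, none) (mpF j F2) := by
          have e8 : F2 = insert s(x, y) (insert s(y, u) F1) := by
            rw [hF2]
            ext e
            rw [Finset.mem_erase, Finset.mem_insert, Finset.mem_insert, hF1, Finset.mem_erase,
              Finset.mem_erase, Finset.mem_erase]
            constructor
            · rintro ⟨h1, h2⟩
              by_cases h3 : e = s(x, y)
              · exact Or.inl h3
              · by_cases h4 : e = s(y, u)
                · exact Or.inr (Or.inl h4)
                · exact Or.inr (Or.inr ⟨h4, h1, h3, h2⟩)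
            · rintro (rfl | rfl | ⟨-, h1, -, h2⟩)
              · exact ⟨n12, he⟩
              · exact ⟨n23.symm, hu⟩
              · exact ⟨h1, h2⟩
          rw [e8, hins, hins]
          rw [Finset.insert_comm s(j x, j y), Sym2.eq_swap (a := (none : Option V))]
        have h := TN.three β' (mpF j F1) (N := N) (x := j x) (y := j y) (z := j z) (u := j u)
          (o := none)
          (fun h => Finset.notMem_erase _ _ (mem_mpF.1 h))
          (by
            rw [← hins, e0]
            exact fun h => Finset.notMem_erase _ _ (mem_mpF.1 h))
          (by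
            rw [← hins, e0, ← hins, Finset.insert_erase i2]
            exact fun h => Finset.notMem_erase _ _ (mem_mpF.1 h))
          (by rw [hcm]; omega) (fun h => hzy (j.injective h).symm)
          (fun h => hux (j.injective h).symm) (fun h => hxy (j.injective h))
          (fun h => hxz (j.injective h)) (fun h => hyu (j.injective h))
          (by
            have h9 := gmp F1
            unfold gb at h9 d0
            rw [h9, hcm]
            exact d0)
          (hmem _ x (by
            intro e he' hxe
            obtain ⟨a, b, -, d⟩ := m0 he'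
            rcases hx2 e d hxe with h | h
            · exact a h
            · exact b h))
          (hmem _ y (by
            intro e he' hye
            obtain ⟨a, -, c, d⟩ := m0 he'
            rcases hy2 e d hye with h | h
            · exact a h
            · exact c h))
          (by
            intro huz
            have huz' : u = z := j.injective huz
            refine hmem _ z ?_
            intro e he' hze
            obtain ⟨-, b, c, d⟩ := m0 he'
            rcases hM.two hz hu hnb2 n23 (Sym2.mem_mk_right _ _)
              (by rw [huz']; exact Sym2.mem_mk_right _ _) e d hze with h | h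
            · exact b h
            · exact c h)
          rfl (by rw [hset]; exact hP0)
        rw [← hins, ← hins, ← hins, e2, gmp] at h
        exact h
      · push Not at hy
        refine caseB x y z he hnb hz hzy.symm ?_
        rintro e he' ⟨w, rfl⟩
        by_cases hw : w = x
        · rw [hw, Sym2.eq_swap]
        · exact absurd he' (hy w hw)
    · push Not at hx
      have hx' : ∀ e ∈ F, x ∈ e → e = s(x, y) := by
        rintro e he' ⟨w, rfl⟩
        by_cases hw : w = y
        · rw [hw]
        · exact absurd he' (hx w hw)
      by_cases hy : ∃ u, u ≠ x ∧ s(y, u) ∈ F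
      · obtain ⟨u, hux, hu⟩ := hy
        refine caseB y x u (by rw [Sym2.eq_swap]; exact he) (by rw [Sym2.eq_swap]; exact hnb) hu
          hux.symm ?_
        intro e he' hxe
        rw [hx' e he' hxe, Sym2.eq_swap]
      · push Not at hy
        have c1 : (F.erase s(x, y)).card + 1 = F.card := Finset.card_erase_add_one he
        have hb1 : F0 ⊆ F.erase s(x, y) := fun e he' =>
          Finset.mem_erase.2 ⟨fun h => hnb (h ▸ he'), hM.1 he'⟩
        obtain ⟨m, hm, hm'⟩ := hNR (β x) (β y) (hloop x y he)
        have h := TN.one β F he hxy
          (sub (F.erase s(x, y)) hb1 (Finset.erase_subset _ _) (by omega))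
          ⟨m, BM_anti (Finset.erase_subset _ _) _ hm, hm'⟩ hx' (by
            rintro e he' ⟨w, rfl⟩
            by_cases hw : w = x
            · rw [hw, Sym2.eq_swap]
            · exact absurd he' (hy w hw))
        omega

end Pool.Agent.Y530.TN
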