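import Mathlib
import Pool.Agent.Y530.TB.Fin
import Pool.Agent.Y530.TN.Ind
import Pool.Agent.Y530.TN.Rel
import Pool.Agent.Y927.TN.Ext
import Pool.Agent.Y71.TN.Pick
import Pool.Agent.Y448.TN.Pair
import Pool.Agent.Y31.TN.Cnt
import Pool.Agent.Y768.TN.Num4
import Pool.Agent.Y739.TN.Num5
import Pool.Agent.Y941.TN.Tri

/-!
# The rank of systems of bundles of `n` bars and of further bars
-/

set_option autoImplicit false

namespace Pool.Agent.Y530.TN

open Finset Module Pool.Agent.W824.BJ Pool.Agent.Y530.BB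

theorem pn_three : ∀ N, PN 3 N := by
  intro N V B _ _ β χ Q hQ hN hNR
  classical
  have hB : TB.Bun β χ Q := hQ
  have hM : TB.Mx β χ Q (TB.bs Q) :=
    ⟨hB, subset_rfl, fun v => Or.inl fun e he _ => he⟩
  have hloop : ∀ u v, s(u, v) ∈ TB.bs Q → β u ≠ β v := by
    intro u v huv
    obtain ⟨e, he, hx⟩ := TB.mem_bs.1 huv
    obtain ⟨b, b', hne, hb⟩ := hB.1 e he
    obtain ⟨u', v', rfl, rfl, h1⟩ := hb.br hx
    rcases Sym2.eq_iff.1 h1 with ⟨rfl, rfl⟩ | ⟨rfl, rfl⟩
    · exact hne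
    · exact hne.symm
  have hsp : Sparse β (TB.bs Q) := TB.sparse_of_NRM (N := (TB.bs Q).card + 1)
    (fun m _ => TB.all_PM TB.pq_all m) β χ Q (TB.bs Q) hM (by omega) hloop hNR
  have h1 := TB.all_PM TB.pq_all _ V B β χ Q (TB.bs Q) rfl hM hsp
  have h2 := TB.card_bs hB
  have h3 : gb β (bs Q) = gb β (TB.bs Q) := rfl
  omega

theorem pn_all (n : ℕ) (hn : 3 ≤ n) : ∀ N, PN n N := by
  rcases Nat.lt_or_ge n 4 with h | h
  · obtain rfl : n = 3 := by omega
    exact pn_three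
  · haveI : NeZero n := ⟨by omega⟩
    refine all_PN h Pool.Agent.Y781.TB.Row.t (Pool.Agent.Y927.TN.Ext.t n)
      Pool.Agent.Y71.TN.Pick.t Pool.Agent.Y448.TN.Pair.t Pool.Agent.Y31.TN.Cnt.t fun h5 => ?_
    have h6 : n = 4 ∨ n = 5 := by omega
    rcases h6 with rfl | rfl
    · exact Pool.Agent.Y941.TN.Tri.t 4 Pool.Agent.Y768.TN.Num4.t
    · exact Pool.Agent.Y941.TN.Tri.t 5 Pool.Agent.Y739.TN.Num5.t

/-- the rank of a system of bundles and of bars with at most two bars at each end: equality for the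
partition into the classes of bodies which move together -/
theorem upper {V B : Type} [Fintype V] [Fintype B] {n : ℕ} (hn : 3 ≤ n) (β : V → B)
    (χ : V → Fin n) (Q : Finset (Finset (Sym2 V))) (F : Finset (Sym2 V)) (hQ : Bun β χ Q)
    (hM : Ms (bs Q) F) :
    ∃ r : Setoid B, 6 * Nat.card (Quotient r) = gb β F + (crs (Quotient.mk r ∘ β) F).card := by
  classical
  refine ⟨mt β F, ?_⟩
  have hQ' := hQ.qc (Quotient.mk (mt β F))
  have hb := bs_qc (Quotient.mk (mt β F)) hQ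
  have hNR : NR (Quotient.mk (mt β F) ∘ β) (crs (Quotient.mk (mt β F) ∘ β) F) := NR_mt β F
  have hsub : crs (Quotient.mk (mt β F) ∘ β) (bs Q) ⊆ crs (Quotient.mk (mt β F) ∘ β) F := by
    intro e he
    rw [mem_crs] at he ⊢
    exact ⟨hM.1 he.1, he.2⟩
  have hbase := pn_all n hn _ V (Quotient (mt β F)) (Quotient.mk (mt β F) ∘ β) χ _ hQ' rfl
    (by rw [hb]; exact hNR.mono hsub)
  rw [← card_bs hQ', hb] at hbase
  have hMs : Ms (crs (Quotient.mk (mt β F) ∘ β) (bs Q)) (crs (Quotient.mk (mt β F) ∘ β) F) := by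
    refine ⟨hsub, fun v => ?_⟩
    rcases hM.2 v with h4 | ⟨h4, h5⟩
    · refine Or.inl fun e he hv => ?_
      rw [mem_crs] at he ⊢
      exact ⟨h4 e he.1 hv, he.2⟩
    · exact Or.inr ⟨fun e he => h4 e (crs_subset _ _ he),
        (Finset.card_le_card (Finset.filter_subset_filter _ (crs_subset _ F))).trans h5⟩
  have h := rel_all _ V (Quotient (mt β F)) (Quotient.mk (mt β F) ∘ β) _ _ rfl hMs
    (fun u v huv => (mem_crs'.1 huv).2) hNR hbase
  rw [gb_mt] at h
  rw [Nat.card_eq_fintype_card]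
  omega

end Pool.Agent.Y530.TN
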