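import Mathlib
import Pool.Agent.Y530.BB.Real

/-!
# The statements of the final theorem
-/

set_option autoImplicit false

namespace Pool.Agent.Y530.TN

open Pool.Agent.H283R2.DR Pool.Agent.H789R5

/-- the rank of the complete graph with `n` vertices: `0`, `0`, `1` for `n = 0, 1, 2`, and
`3 n - 6` for `n ≥ 3` -/
def rk (n : ℕ) : ℕ := if n ≤ 1 then 0 else if n = 2 then 1 else 3 * n - 6

/-- the number of edges of `G` between vertices whose parts are in different classes of `r`; the
part of the vertex `v` is `β v` -/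
noncomputable def between {V B : Type} (G : SimpleGraph V) (β : V → B) (r : Setoid B) : ℕ :=
  {e : Sym2 V | ∃ u v, G.Adj u v ∧ ¬ r (β u) (β v) ∧ e = s(u, v)}.ncard

/-- `e` is a bundle: it consists of the `n` edges joining `f k` and `g k`, `k = 0, …, n - 1`, where
all `f k` are in one part and all `g k` in another part, the colours of the `f k` are different and
the colours of the `g k` are different; the part of the vertex `v` is `β v`, its colour is `χ v` -/
def IsBundle {V B : Type} {n : ℕ} (β : V → B) (χ : V → Fin n) (e : Set (Sym2 V)) : Prop :=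
  ∃ (b b' : B) (f g : Fin n → V), b ≠ b' ∧ (∀ k, β (f k) = b) ∧ (∀ k, β (g k) = b') ∧
    Function.Injective (fun k => χ (f k)) ∧ Function.Injective (fun k => χ (g k)) ∧
    e = Set.range fun k => s(f k, g k)

/-- graphs composed of rigid parts -/
def S_GEN : Prop := ∀ n : ℕ, 3 ≤ n → ∀ (V B : Type) [Fintype V] [Fintype B] (G : SimpleGraph V)
    (β : V → B) (χ : V → Fin n) (Q : Set (Set (Sym2 V))),
    (∀ b, GenRigid 3 (G.induce {v | β v = b})) →
    (∀ e ∈ Q, IsBundle β χ e ∧ e ⊆ G.edgeSet) → Q.PairwiseDisjoint id →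
    (∀ v, (∀ w, G.Adj v w → β w ≠ β v → ∃ e ∈ Q, s(v, w) ∈ e) ∨
      ((∀ e ∈ Q, ∀ x ∈ e, v ∉ x) ∧ {w | G.Adj v w ∧ β w ≠ β v}.ncard ≤ 2)) →
    IsLeast {m : ℕ | ∃ r : Setoid B, m = ∑ b, rk {v | β v = b}.ncard +
        6 * (Nat.card B - Nat.card (Quotient r)) + between G β r} (genRank 3 G) ∧
      ((∀ b, 3 ≤ {v | β v = b}.ncard) →
        (GenRigid 3 G ↔ ∀ r : Setoid B, 6 * Nat.card (Quotient r) ≤ between G β r + 6))

/-- cartesian products with a rigid graph -/
def S_PRD : Prop := ∀ (W U : Type) [Fintype W] [Fintype U] (P : SimpleGraph W)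
    (H : SimpleGraph U), 3 ≤ Nat.card W → GenRigid 3 P →
    IsLeast {m : ℕ | ∃ r : Setoid U, m = (3 * Nat.card W - 6) * Nat.card U +
        6 * (Nat.card U - Nat.card (Quotient r)) + Nat.card W * between H id r}
        (genRank 3 (P □ H)) ∧
      (GenRigid 3 (P □ H) ↔
        ∀ r : Setoid U, 6 * Nat.card (Quotient r) ≤ Nat.card W * between H id r + 6)

end Pool.Agent.Y530.TN
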