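import Mathlib
import Pool.Agent.Y530.TN.Fin
import Pool.Agent.Y530.TN.ResDefs

/-!
# The theorem on graphs composed of rigid parts
-/

set_option autoImplicit false

namespace Pool.Agent.Y530.TN

open Pool.Agent.H283R2.DR Pool.Agent.H789R5 Pool.Agent.Y530.BB Pool.Agent.W824.BJ

theorem between_eq {V B : Type} [Fintype V] (G : SimpleGraph V) (β : V → B) (r : Setoid B) :
    between G β r = (crs (Quotient.mk r ∘ β) (cE G β)).card := by
  classical
  unfold between
  rw [← Set.ncard_coe_finset]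
  congr 1
  ext e
  induction e using Sym2.ind with
  | _ a b =>
    rw [Finset.mem_coe, mem_crs', mem_cE]
    constructor
    · rintro ⟨u, v, h1, h2, h3⟩
      have h4 : ¬ r (β a) (β b) := by
        rcases Sym2.eq_iff.1 h3 with ⟨rfl, rfl⟩ | ⟨rfl, rfl⟩
        · exact h2
        · exact fun h => h2 (r.symm h)
      have h5 : G.Adj a b := by
        rcases Sym2.eq_iff.1 h3 with ⟨rfl, rfl⟩ | ⟨rfl, rfl⟩
        · exact h1
        · exact h1.symm
      refine ⟨⟨h5, fun h => h4 (by rw [h])⟩, fun h => h4 ?_⟩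
      exact Quotient.exact h
    · rintro ⟨⟨h1, -⟩, h2⟩
      exact ⟨a, b, h1, fun h => h2 (Quotient.sound h), rfl⟩

theorem isBd_of {V B : Type} {n : ℕ} {β : V → B} {χ : V → Fin n} {e : Finset (Sym2 V)}
    (h : IsBundle β χ (e : Set (Sym2 V))) : ∃ b b', b ≠ b' ∧ IsBd β χ b b' e := by
  obtain ⟨b, b', f, g, hne, hf, hg, hcf, hcg, he⟩ := h
  have hbf : Function.Bijective (fun k => χ (f k)) := Finite.injective_iff_bijective.1 hcf
  let σ : Equiv.Perm (Fin n) := Equiv.ofBijective _ hbf
  have hσ : ∀ k, χ (f (σ.symm k)) = k := fun k => σ.apply_symm_apply k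
  refine ⟨b, b', hne, fun k => f (σ.symm k), fun k => g (σ.symm k), hσ, ?_, fun k => hf _,
    fun k => hg _, ?_⟩
  · intro k l hkl
    exact σ.symm.injective (hcg hkl)
  · ext x
    rw [← Finset.mem_coe, he, mem_brn]
    constructor
    · rintro ⟨k, rfl⟩
      exact ⟨σ k, by rw [Equiv.symm_apply_apply]⟩
    · rintro ⟨k, rfl⟩
      exact ⟨σ.symm k, rfl⟩

theorem exists_ms {V B : Type} [Fintype V] {n : ℕ} {G : SimpleGraph V} {β : V → B} {χ : V → Fin n}
    {Q : Set (Set (Sym2 V))} (hQ : ∀ e ∈ Q, IsBundle β χ e ∧ e ⊆ G.edgeSet)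
    (hdis : Q.PairwiseDisjoint id)
    (hdeg : ∀ v, (∀ w, G.Adj v w → β w ≠ β v → ∃ e ∈ Q, s(v, w) ∈ e) ∨
      ((∀ e ∈ Q, ∀ x ∈ e, v ∉ x) ∧ {w | G.Adj v w ∧ β w ≠ β v}.ncard ≤ 2)) :
    ∃ Q' : Finset (Finset (Sym2 V)), Bun β χ Q' ∧ Ms (bs Q') (cE G β) := by
  classical
  let Q' : Finset (Finset (Sym2 V)) := Finset.univ.filter fun e => (e : Set (Sym2 V)) ∈ Q
  have hm : ∀ e, e ∈ Q' ↔ (e : Set (Sym2 V)) ∈ Q := by
    intro e
    simp [Q']
  have hm2 : ∀ x, (∃ e ∈ Q, x ∈ e) → x ∈ bs Q' := by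
    rintro x ⟨e, he, hx⟩
    exact mem_bs.2 ⟨e.toFinset, (hm _).2 (by simpa using he), by simpa using hx⟩
  have hbun : Bun β χ Q' := by
    refine ⟨fun e he => isBd_of (hQ _ ((hm e).1 he)).1, fun e he e' he' hne => ?_⟩
    have h1 := hdis ((hm e).1 he) ((hm e').1 he') (fun h => hne (Finset.coe_injective h))
    exact Finset.disjoint_coe.1 h1
  refine ⟨Q', hbun, ?_, fun v => ?_⟩
  · intro x hx
    obtain ⟨e, he, hx⟩ := mem_bs.1 hx
    obtain ⟨b, b', hne, hb⟩ := hbun.1 e he
    obtain ⟨u, v, rfl, rfl, rfl⟩ := hb.br hx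
    rw [mem_cE]
    exact ⟨(SimpleGraph.mem_edgeSet G).1 ((hQ _ ((hm e).1 he)).2 (Finset.mem_coe.2 hx)), hne⟩
  · rcases hdeg v with h1 | ⟨h1, h2⟩
    · left
      rintro e he ⟨w, rfl⟩
      rw [mem_cE] at he
      exact hm2 _ (h1 w he.1 he.2.symm)
    · right
      refine ⟨?_, ?_⟩
      · intro x hx
        obtain ⟨e, he, hx⟩ := mem_bs.1 hx
        exact h1 _ ((hm e).1 he) x (Finset.mem_coe.2 hx)
      · refine le_trans ?_ h2
        have h3 : {w | G.Adj v w ∧ β w ≠ β v} =
            ((Finset.univ.filter fun w => G.Adj v w ∧ β w ≠ β v : Finset V) : Set V) := by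
          ext w
          simp
        rw [h3, Set.ncard_coe_finset]
        refine Finset.card_le_card_of_surjOn (fun w => s(v, w)) ?_
        intro e he
        rw [Finset.mem_coe, Finset.mem_filter] at he
        obtain ⟨h2, w, rfl⟩ := he
        rw [mem_cE] at h2
        exact ⟨w, by simpa using ⟨h2.1, h2.2.symm⟩, rfl⟩

theorem gen : S_GEN := by
  intro n hn V B _ _ G β χ Q hrig hQ hdis hdeg
  classical
  obtain ⟨Q', hbun, hM⟩ := exists_ms hQ hdis hdeg
  have h1 := genRank_gb G β hrig
  have hpt : ∀ b, (pt β b).card = {v | β v = b}.ncard := by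
    intro b
    rw [← Set.ncard_coe_finset]
    congr 1
    ext v
    rw [Finset.mem_coe, mem_pt]
    rfl
  have hrho : ∑ b, rho (pt β b).card = ∑ b, rk {v | β v = b}.ncard :=
    Finset.sum_congr rfl fun b _ => by rw [hpt b]; rfl
  rw [hrho] at h1
  have hle : ∀ r : Setoid B, Nat.card (Quotient r) ≤ Nat.card B := fun r =>
    Nat.card_le_card_of_surjective (Quotient.mk r) Quotient.mk_surjective
  have hlow : ∀ r : Setoid B, 6 * Nat.card (Quotient r) ≤ gb β (cE G β) + between G β r := by
    intro r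
    rw [between_eq]
    exact gb_lower β (cE G β) r
  obtain ⟨r0, hr0⟩ := upper hn β χ Q' (cE G β) hbun hM
  rw [← between_eq] at hr0
  have hB : Nat.card B = Fintype.card B := Nat.card_eq_fintype_card
  refine ⟨⟨⟨r0, ?_⟩, ?_⟩, fun h3 => ?_⟩
  · have := hle r0
    omega
  · rintro m ⟨r, rfl⟩
    have := hle r
    have := hlow r
    omega
  · rcases isEmpty_or_nonempty B with hBe | hBn
    · have hV : IsEmpty V := ⟨fun v => hBe.false (β v)⟩
      constructor
      · intro _ r
        have h4 : Nat.card (Quotient r) ≤ Nat.card B := hle r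
        have h5 : Nat.card B = 0 := Nat.card_of_isEmpty
        omega
      · intro _
        refine ⟨fun _ => 0, fun q _ => ⟨0, 0, by simp, fun v => (hV.false v).elim⟩⟩
    · obtain ⟨p, hp⟩ := exists_mg V 3
      have hsum : ∑ b, rk {v | β v = b}.ncard + 6 * Fintype.card B = 3 * Fintype.card V := by
        have h4 : ∑ b : B, 6 = 6 * Fintype.card B := by simp [mul_comm]
        rw [← h4, ← Finset.sum_add_distrib]
        have h5 : ∀ b, rk {v | β v = b}.ncard + 6 = 3 * (pt β b).card := by
          intro b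
          have h6 := h3 b
          rw [hpt b]
          unfold rk
          rw [if_neg (by omega), if_neg (by omega)]
          omega
        rw [Finset.sum_congr rfl fun b _ => h5 b, ← Finset.mul_sum]
        congr 1
        rw [← Finset.card_univ (α := V), Finset.card_eq_sum_card_fiberwise (f := β)
          (t := Finset.univ) (fun _ _ => Finset.mem_univ _)]
        rfl
      have hV3 : 3 ≤ Fintype.card V := by
        obtain ⟨b⟩ := hBn
        have h4 := h3 b
        rw [← hpt b] at h4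
        exact h4.trans (Finset.card_le_univ _)
      rw [genRigid_iff hp hV3]
      have h2 := genRank_add hp G
      constructor
      · intro h4 r
        have := hlow r
        omega
      · intro h4
        have := h4 r0
        omega

end Pool.Agent.Y530.TN
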